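import Mathlib

/-!
Rank of an abelian group with an involution.
-/

set_option autoImplicit false

namespace Pool.Agent.W92892cH77

/-- An injective homomorphism preserves the rank of its image. -/
theorem rank_eq_of_range {A M : Type} [AddCommGroup A] [AddCommGroup M] (f : A →+ M)
    (hf : Function.Injective f) (N : Submodule ℤ M) (hN : ∀ x, x ∈ N ↔ ∃ a, f a = x) :
    Module.rank ℤ A = Module.rank ℤ N := by
  have hr : N = LinearMap.range f.toIntLinearMap := by
    ext x
    rw [hN]
    rfl
  rw [hr]
  exact LinearEquiv.rank_eq (LinearEquiv.ofInjective f.toIntLinearMap hf)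

/-- The rank of a torsion group is zero. -/
theorem rank_zero_of_two_torsion {A : Type} [AddCommGroup A] (h : ∀ a : A, a + a = 0) :
    Module.rank ℤ A = 0 := by
  rw [rank_eq_zero_iff]
  intro x
  exact ⟨2, two_ne_zero, by rw [two_smul]; exact h x⟩

theorem rank_invol {M : Type} [AddCommGroup M] (σ : M →+ M) (hσ : ∀ x, σ (σ x) = x)
    (P N : Submodule ℤ M) (hP : ∀ x, x ∈ P ↔ σ x = x) (hN : ∀ x, x ∈ N ↔ σ x = -x) :
    Module.rank ℤ M = Module.rank ℤ P + Module.rank ℤ N := by
  let f : M →ₗ[ℤ] M := LinearMap.id - σ.toIntLinearMap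
  have hf : ∀ x, f x = x - σ x := fun x => rfl
  have hker : LinearMap.ker f = P := by
    ext x
    rw [LinearMap.mem_ker, hf, hP, sub_eq_zero]
    exact eq_comm
  have hran : LinearMap.range f ≤ N := by
    rintro _ ⟨x, rfl⟩
    rw [hN, hf, map_sub, hσ]
    abel
  have h1 := LinearMap.rank_range_add_rank_ker f
  rw [hker] at h1
  have h2 : Module.rank ℤ (LinearMap.range f) = Module.rank ℤ N := by
    apply le_antisymm
    · exact Submodule.rank_mono hran
    · let g : N →ₗ[ℤ] (LinearMap.range f) := f.rangeRestrict.comp N.subtype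
      have h3 := LinearMap.rank_range_add_rank_ker g
      have h4 : Module.rank ℤ (LinearMap.ker g) = 0 := by
        apply rank_zero_of_two_torsion
        rintro ⟨⟨x, hx⟩, hk⟩
        rw [LinearMap.mem_ker] at hk
        have hk' : f x = 0 := congrArg Subtype.val hk
        rw [hf, (hN x).mp hx, sub_neg_eq_add] at hk'
        apply Subtype.ext
        apply Subtype.ext
        exact hk'
      rw [h4, add_zero] at h3
      rw [← h3]
      exact Submodule.rank_le _
  rw [← h1, h2, add_comm]

end Pool.Agent.W92892cH77
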