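import Pool.Agent.W_92892c_h77.Scale
import Pool.Agent.W_92892c_h77.Invol

/-!
Rank over a quadratic extension `L/F`: `rank W(L) = rank W(F) + rank W'(F)`, `W'` the twist.
-/

set_option autoImplicit false
set_option linter.unusedSectionVars false

namespace Pool.Agent.W92892cH77

open WeierstrassCurve WeierstrassCurve.Affine

theorem negY_of {F : Type*} [Field F] (W : WeierstrassCurve F) (h1 : W.a₁ = 0) (h3 : W.a₃ = 0)
    (x y : F) : W.toAffine.negY x y = -y := by
  simp only [WeierstrassCurve.Affine.negY, WeierstrassCurve.toAffine]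
  rw [h1, h3]
  ring

variable {F L : Type} [Field F] [Field L] [Algebra F L] [DecidableEq F] [DecidableEq L]

theorem rank_quad (W W' : WeierstrassCurve ℤ) (h1 : W.a₁ = 0) (h3 : W.a₃ = 0) (h1' : W'.a₁ = 0)
    (h3' : W'.a₃ = 0) (σ : L →ₐ[F] L) (hσ : ∀ x, σ (σ x) = x)
    (hfix : ∀ x, σ x = x → ∃ y, algebraMap F L y = x) (u : L) (hu : σ u = -u)
    (hsc : IsScale u (W⁄L) (W'⁄L)) :
    Module.rank ℤ (W⁄L).Point = Module.rank ℤ (W⁄F).Point + Module.rank ℤ (W'⁄F).Point := by
  have hu0 : u ≠ 0 := hsc.ne
  have h1L : (W⁄L).a₁ = 0 := by simp [WeierstrassCurve.baseChange, h1]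
  have h3L : (W⁄L).a₃ = 0 := by simp [WeierstrassCurve.baseChange, h3]
  have h1L' : (W'⁄L).a₁ = 0 := by simp [WeierstrassCurve.baseChange, h1']
  have h3L' : (W'⁄L).a₃ = 0 := by simp [WeierstrassCurve.baseChange, h3']
  let s : (W⁄L).Point →+ (W⁄L).Point := Point.map σ
  have hs_some : ∀ {x y : L} (h : (W⁄L).Nonsingular x y), s (.some x y h) =
      .some (σ x) (σ y) ((WeierstrassCurve.Affine.baseChange_nonsingular W.toAffine σ.injective ..).mpr h) := fun h => rfl
  have hs : ∀ x, s (s x) = x := by
    rintro (_ | ⟨x, y, h⟩)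
    · rfl
    · rw [hs_some, hs_some]
      simp only [Point.some.injEq]
      exact ⟨hσ x, hσ y⟩
  let P : Submodule ℤ (W⁄L).Point := LinearMap.ker (s.toIntLinearMap - LinearMap.id)
  have hP : ∀ x, x ∈ P ↔ s x = x := by
    intro x
    rw [LinearMap.mem_ker]
    exact sub_eq_zero
  let N : Submodule ℤ (W⁄L).Point := LinearMap.ker (s.toIntLinearMap + LinearMap.id)
  have hN : ∀ x, x ∈ N ↔ s x = -x := by
    intro x
    rw [LinearMap.mem_ker]
    exact add_eq_zero_iff_eq_neg
  have key := rank_invol s hs P N hP hN
  have e1 : Module.rank ℤ (W⁄F).Point = Module.rank ℤ P := by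
    apply rank_eq_of_range (Point.baseChange F L) (Point.map_injective _)
    intro x
    rw [hP]
    constructor
    · intro h
      rcases x with _ | ⟨x, y, hxy⟩
      · exact ⟨0, rfl⟩
      · rw [hs_some] at h
        simp only [Point.some.injEq] at h
        obtain ⟨a, ha⟩ := hfix x h.1
        obtain ⟨b, hb⟩ := hfix y h.2
        have hab : (W⁄F).Nonsingular a b := by
          rw [← WeierstrassCurve.Affine.baseChange_nonsingular W.toAffine (f := Algebra.ofId F L) (Algebra.ofId F L).injective]
          convert hxy using 1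
          · exact ha
          · exact hb
        refine ⟨.some a b hab, ?_⟩
        have : Point.baseChange F L (.some a b hab) = .some _ _ ((WeierstrassCurve.Affine.baseChange_nonsingular W.toAffine
          (Algebra.ofId F L).injective ..).mpr hab) := rfl
        rw [this]
        simp only [Point.some.injEq]
        exact ⟨ha, hb⟩
    · rintro ⟨a, rfl⟩
      exact Point.map_baseChange σ a
  have e2 : Module.rank ℤ (W'⁄F).Point = Module.rank ℤ N := by
    have hinj : Function.Injective (hsc.symm.hom.comp (Point.baseChange F L (W' := W'))) := by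
      rw [AddMonoidHom.coe_comp]
      exact hsc.symm.hom_injective.comp (Point.map_injective _)
    apply rank_eq_of_range _ hinj
    intro x
    rw [hN]
    have hu2 : σ (u ^ 2) = u ^ 2 := by rw [map_pow, hu]; ring
    have hui : σ u⁻¹ = -u⁻¹ := by rw [map_inv₀, hu, inv_neg]
    constructor
    · intro h
      rcases x with _ | ⟨x, y, hxy⟩
      · exact ⟨0, rfl⟩
      · rw [hs_some, Point.neg_some] at h
        simp only [Point.some.injEq] at h
        rw [negY_of _ h1L h3L] at h
        obtain ⟨a, ha⟩ := hfix (u ^ 2 * x) (by rw [map_mul, hu2, h.1])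
        obtain ⟨b, hb⟩ := hfix (u ^ 3 * y) (by rw [map_mul, map_pow, hu, h.2]; ring)
        have hab' : (W'⁄L).Nonsingular (algebraMap F L a) (algebraMap F L b) := by
          rw [ha, hb]
          exact hsc.nonsingular hxy
        have hab : (W'⁄F).Nonsingular a b := by
          rw [← WeierstrassCurve.Affine.baseChange_nonsingular W'.toAffine (f := Algebra.ofId F L) (Algebra.ofId F L).injective]
          exact hab'
        refine ⟨.some a b hab, ?_⟩
        have : (hsc.symm.hom.comp (Point.baseChange F L)) (.some a b hab) =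
          .some (u⁻¹ ^ 2 * algebraMap F L a) (u⁻¹ ^ 3 * algebraMap F L b)
            (hsc.symm.nonsingular hab') := rfl
        rw [this]
        simp only [Point.some.injEq]
        rw [ha, hb]
        constructor
        · field_simp
        · field_simp
    · rintro ⟨a, rfl⟩
      rcases a with _ | ⟨a, b, hab⟩
      · rfl
      · have hab' : (W'⁄L).Nonsingular (algebraMap F L a) (algebraMap F L b) :=
          (WeierstrassCurve.Affine.baseChange_nonsingular W'.toAffine (Algebra.ofId F L).injective ..).mpr hab
        have : (hsc.symm.hom.comp (Point.baseChange F L)) (.some a b hab) =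
          .some (u⁻¹ ^ 2 * algebraMap F L a) (u⁻¹ ^ 3 * algebraMap F L b)
            (hsc.symm.nonsingular hab') := rfl
        rw [this, hs_some, Point.neg_some]
        simp only [Point.some.injEq]
        rw [negY_of _ h1L h3L]
        rw [map_mul, map_mul, AlgHom.commutes, AlgHom.commutes, map_pow, map_pow, hui]
        constructor
        · ring
        · ring
  rw [key, e1, e2]

end Pool.Agent.W92892cH77
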