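import Pool.Agent.W_92892c_h77.Desc
import Pool.Agent.W_92892c_h3.Weak

/-!
The weak Mordell theorem for `y² = (x - e₁) (x - e₂) (x - e₃)` over a field with a finite classification
of the relevant square classes.
-/

set_option autoImplicit false

namespace Pool.Agent.W92892cH77

open WeierstrassCurve WeierstrassCurve.Affine

variable {F : Type*} [Field F] [DecidableEq F] {e₁ e₂ e₃ : F}

/-- The group of points. -/
abbrev PtG (e₁ e₂ e₃ : F) : Type _ := (Cg e₁ e₂ e₃).toAffine.Point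

open Classical in
/-- The class of a point. -/
noncomputable def ffG {T : Type*} (cl : F → T) (e₁ e₂ e₃ : F) : PtG e₁ e₂ e₃ → Fin 4 ⊕ (T × T)
  | .zero => Sum.inl 0
  | .some x y _ => if y = 0 then (if x = e₁ then Sum.inl 1 else if x = e₂ then Sum.inl 2
      else Sum.inl 3) else Sum.inr (cl (x - e₁), cl (x - e₂))

lemma ffG_inj {T : Type*} (cl : F → T) (P : F → Prop) (h2 : (2 : F) ≠ 0) (h12 : e₁ ≠ e₂)
    (h13 : e₁ ≠ e₃) (h23 : e₂ ≠ e₃)
    (hcl : ∀ x x' : F, x ≠ 0 → x' ≠ 0 → P x → P x' → cl x = cl x' → IsSquare (x * x'))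
    (hP : ∀ x y : F, y ≠ 0 → y ^ 2 = (x - e₁) * (x - e₂) * (x - e₃) → P (x - e₁) ∧ P (x - e₂))
    (A B : PtG e₁ e₂ e₃) (h : ffG cl e₁ e₂ e₃ A = ffG cl e₁ e₂ e₃ B) :
    A - B ∈ CN3.HH (PtG e₁ e₂ e₃) := by
  rcases A with _ | ⟨x, y, hA⟩ <;> rcases B with _ | ⟨x', y', hB⟩
  · rw [sub_self]; exact zero_mem _
  · exfalso
    simp only [ffG] at h
    split_ifs at h <;> simp at h
  · exfalso
    simp only [ffG] at h
    split_ifs at h <;> simp at h
  · have E₁ := (cg_eqn x y).mp hA.1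
    have E₂ := (cg_eqn x' y').mp hB.1
    by_cases hy : y = 0
    · by_cases hy' : y' = 0
      · have hroot : ∀ z : F, (0 : F) ^ 2 = (z - e₁) * (z - e₂) * (z - e₃) →
            z = e₁ ∨ z = e₂ ∨ z = e₃ := by
          intro z hz
          have h' : (z - e₁) * (z - e₂) * (z - e₃) = 0 := by rw [← hz]; ring
          rcases mul_eq_zero.mp h' with h | h
          · rcases mul_eq_zero.mp h with h | h
            · exact Or.inl (sub_eq_zero.mp h)
            · exact Or.inr (Or.inl (sub_eq_zero.mp h))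
          · exact Or.inr (Or.inr (sub_eq_zero.mp h))
        have hx : x = x' := by
          subst hy hy'
          simp only [ffG] at h
          rcases hroot x E₁ with h1 | h1 | h1 <;> rcases hroot x' E₂ with h2 | h2 | h2 <;>
            subst h1 <;> subst h2 <;> first | rfl | skip
          all_goals
            exfalso
            revert h
            simp [h12, h13, h23, h12.symm, h13.symm, h23.symm]
        subst hx hy hy'
        rw [sub_self]; exact zero_mem _
      · exfalso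
        simp only [ffG, hy, hy', if_true, if_false] at h
        split_ifs at h
    · by_cases hy' : y' = 0
      · exfalso
        simp only [ffG, hy, hy', if_true, if_false] at h
        split_ifs at h
      · simp only [ffG, hy, hy', if_false] at h
        rw [Sum.inr.injEq, Prod.mk.injEq] at h
        have z₁ : (x - e₁) * (x - e₂) * (x - e₃) ≠ 0 := by rw [← E₁]; exact pow_ne_zero 2 hy
        have z₂ : (x' - e₁) * (x' - e₂) * (x' - e₃) ≠ 0 := by rw [← E₂]; exact pow_ne_zero 2 hy'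
        have a₁' := (mul_ne_zero_iff.mp (mul_ne_zero_iff.mp z₁).1).2
        have a₁'' := (mul_ne_zero_iff.mp (mul_ne_zero_iff.mp z₁).1).1
        have a₂' := (mul_ne_zero_iff.mp (mul_ne_zero_iff.mp z₂).1).2
        have a₂'' := (mul_ne_zero_iff.mp (mul_ne_zero_iff.mp z₂).1).1
        have c1 := hcl _ _ a₁'' a₂'' (hP x y hy E₁).1 (hP x' y' hy' E₂).1 h.1
        have c2 := hcl _ _ a₁' a₂' (hP x y hy E₁).2 (hP x' y' hy' E₂).2 h.2
        obtain ⟨R, hR⟩ := cg_same_class h2 h12 h13 h23 hA hB hy hy' c1 c2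
        rw [CN3.mem_HH]
        refine ⟨R - Point.some x' y' hB, ?_⟩
        have : R - Point.some x' y' hB + (R - Point.some x' y' hB) =
          (R + R) - Point.some x' y' hB - Point.some x' y' hB := by abel
        rw [this, hR]
        abel

/-- Weak Mordell theorem with a bound. -/
theorem card_quotG {T : Type*} [Finite T] (cl : F → T) (P : F → Prop) (h2 : (2 : F) ≠ 0)
    (h12 : e₁ ≠ e₂) (h13 : e₁ ≠ e₃) (h23 : e₂ ≠ e₃)
    (hcl : ∀ x x' : F, x ≠ 0 → x' ≠ 0 → P x → P x' → cl x = cl x' → IsSquare (x * x'))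
    (hP : ∀ x y : F, y ≠ 0 → y ^ 2 = (x - e₁) * (x - e₂) * (x - e₃) → P (x - e₁) ∧ P (x - e₂)) :
    Finite (PtG e₁ e₂ e₃ ⧸ CN3.HH (PtG e₁ e₂ e₃)) ∧
    Nat.card (PtG e₁ e₂ e₃ ⧸ CN3.HH (PtG e₁ e₂ e₃)) ≤ 4 + Nat.card T ^ 2 := by
  have hinj : Function.Injective (fun c : PtG e₁ e₂ e₃ ⧸ CN3.HH (PtG e₁ e₂ e₃) =>
      ffG cl e₁ e₂ e₃ (Quotient.out c)) := by
    intro c c' h
    have h1 := ffG_inj cl P h2 h12 h13 h23 hcl hP _ _ h
    rw [← QuotientAddGroup.out_eq' c, ← QuotientAddGroup.out_eq' c']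
    rw [QuotientAddGroup.eq_iff_sub_mem]
    exact h1
  refine ⟨Finite.of_injective _ hinj, (Nat.card_le_card_of_injective _ hinj).trans ?_⟩
  rw [Nat.card_sum, Nat.card_prod, Nat.card_eq_fintype_card, Fintype.card_fin, sq]

end Pool.Agent.W92892cH77
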