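import Pool.Agent.W_92892c_h77.Primes
import Pool.Agent.W_92892c_h77.WeakG
import Pool.Agent.W_92892c_h77.Quad
import Pool.Agent.W_92892c_h3.MW

/-!
Mordell's theorem and a bound for the rank of the quadratic twists of an arbitrary elliptic curve
over `ℚ`.
-/

set_option autoImplicit false
set_option linter.unusedSectionVars false

namespace Pool.Agent.W92892cH77

open WeierstrassCurve WeierstrassCurve.Affine IsDedekindDomain NumberField

theorem cg_delta {F : Type*} [Field F] (e₁ e₂ e₃ : F) :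
    (Cg e₁ e₂ e₃).Δ = 16 * ((e₁ - e₂) * (e₁ - e₃) * (e₂ - e₃)) ^ 2 := by
  simp only [WeierstrassCurve.Δ, WeierstrassCurve.b₂, WeierstrassCurve.b₄, WeierstrassCurve.b₆,
    WeierstrassCurve.b₈, Cg]
  ring

theorem delta_cast {F : Type*} [Field F] (W : WeierstrassCurve ℤ) (h1 : W.a₁ = 0) (h3 : W.a₃ = 0)
    {x y z : F} (e2 : (W.a₂ : F) = -(x + y + z)) (e4 : (W.a₄ : F) = x * y + x * z + y * z)
    (e6 : (W.a₆ : F) = -(x * y * z)) :
    ((W.Δ : ℤ) : F) = 16 * ((x - y) * (x - z) * (y - z)) ^ 2 := by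
  simp only [WeierstrassCurve.Δ, WeierstrassCurve.b₂, WeierstrassCurve.b₄,
    WeierstrassCurve.b₆, WeierstrassCurve.b₈]
  rw [h1, h3]
  push_cast
  rw [e2, e4, e6]
  ring

theorem int_root {F : Type*} [Field F] (a b c : ℤ) {x y z t : F} (e2 : (a : F) = -(x + y + z))
    (e4 : (b : F) = x * y + x * z + y * z) (e6 : (c : F) = -(x * y * z))
    (ht : (t - x) * (t - y) * (t - z) = 0) : _root_.IsIntegral ℤ t := by
  refine ⟨Polynomial.X ^ 3 + Polynomial.C a * Polynomial.X ^ 2 +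
    Polynomial.C b * Polynomial.X + Polynomial.C c, ?_, ?_⟩
  · monicity!
  · simp only [Polynomial.eval₂_add, Polynomial.eval₂_mul, Polynomial.eval₂_pow,
      Polynomial.eval₂_X, Polynomial.eval₂_C]
    have h : ∀ n : ℤ, algebraMap ℤ F n = (n : F) := fun n => by simp
    rw [h, h, h, e2, e4, e6]
    linear_combination ht

section NF

variable {F : Type} [Field F] [NumberField F] [DecidableEq F]

theorem card_bound (E₁ E₂ E₃ : 𝓞 F) (h12 : E₁ ≠ E₂) (h13 : E₁ ≠ E₃) (h23 : E₂ ≠ E₃) :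
    ∃ A c : ℕ, ∀ d : ℤ, d ≠ 0 →
      Finite (PtG ((d : F) * E₁) ((d : F) * E₂) ((d : F) * E₃) ⧸
        CN3.HH (PtG ((d : F) * E₁) ((d : F) * E₂) ((d : F) * E₃))) ∧
      Nat.card (PtG ((d : F) * E₁) ((d : F) * E₂) ((d : F) * E₃) ⧸
        CN3.HH (PtG ((d : F) * E₁) ((d : F) * E₂) ((d : F) * E₃))) ≤
        4 + (2 ^ (c + d.natAbs.primeFactors.card * Module.finrank ℚ F) * A) ^ 2 := by
  have hD : (E₁ - E₂) * (E₁ - E₃) * (E₂ - E₃) ≠ 0 :=
    mul_ne_zero (mul_ne_zero (sub_ne_zero.mpr h12) (sub_ne_zero.mpr h13)) (sub_ne_zero.mpr h23)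
  refine ⟨Nat.card ((FractionalIdeal (nonZeroDivisors (𝓞 F)) F)ˣ ⧸ (toPrincipalIdeal (𝓞 F) F).range) *
    Nat.card ((𝓞 F)ˣ ⧸ (powMonoidHom 2 : (𝓞 F)ˣ →* (𝓞 F)ˣ).range),
    (finite_div F hD).toFinset.card, fun d hd => ?_⟩
  obtain ⟨S, hS, hScard⟩ := exists_primes F hD d hd
  obtain ⟨cl, hcl⟩ := exists_cl (R := 𝓞 F) (K := F) S
  obtain ⟨hfin, hcard⟩ := card_ClsT F S
  have hdF : (d : F) ≠ 0 := by exact_mod_cast hd
  have hcoe : ∀ {a b : 𝓞 F}, a ≠ b → (a : F) ≠ (b : F) := by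
    intro a b hab h
    exact hab (RingOfIntegers.coe_injective h)
  have k12 : (d : F) * E₁ ≠ (d : F) * E₂ := fun h => hcoe h12 (mul_left_cancel₀ hdF h)
  have k13 : (d : F) * E₁ ≠ (d : F) * E₃ := fun h => hcoe h13 (mul_left_cancel₀ hdF h)
  have k23 : (d : F) * E₂ ≠ (d : F) * E₃ := fun h => hcoe h23 (mul_left_cancel₀ hdF h)
  -- the differences have order zero outside `S`
  have hord : ∀ v, v ∉ S → ∀ a b : 𝓞 F, a - b ∣ (E₁ - E₂) * (E₁ - E₃) * (E₂ - E₃) →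
      ord v ((d : F) * a - (d : F) * b) = 0 := by
    intro v hv a b hab
    obtain ⟨h1, h2⟩ := hS v hv
    have h3 : ((d : ℤ) : 𝓞 F) * (a - b) ∉ v.asIdeal := by
      intro h4
      rcases v.isPrime.mem_or_mem h4 with h5 | h5
      · exact h2 h5
      · exact h1 (v.asIdeal.mem_of_dvd hab h5)
    have h4 := ord_eq_zero (K := F) v h3
    have h5 : (algebraMap (𝓞 F) F) (((d : ℤ) : 𝓞 F) * (a - b)) = (d : F) * a - (d : F) * b := by
      rw [map_mul, map_sub, map_intCast, mul_sub]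
    rwa [h5] at h4
  have hdvd12 : E₁ - E₂ ∣ (E₁ - E₂) * (E₁ - E₃) * (E₂ - E₃) := ⟨(E₁ - E₃) * (E₂ - E₃), by ring⟩
  have hdvd21 : E₂ - E₁ ∣ (E₁ - E₂) * (E₁ - E₃) * (E₂ - E₃) := ⟨-((E₁ - E₃) * (E₂ - E₃)), by ring⟩
  have hdvd13 : E₁ - E₃ ∣ (E₁ - E₂) * (E₁ - E₃) * (E₂ - E₃) := ⟨(E₁ - E₂) * (E₂ - E₃), by ring⟩
  have hdvd23 : E₂ - E₃ ∣ (E₁ - E₂) * (E₁ - E₃) * (E₂ - E₃) := ⟨(E₁ - E₂) * (E₁ - E₃), by ring⟩
  have hP : ∀ x y : F, y ≠ 0 →
      y ^ 2 = (x - (d : F) * E₁) * (x - (d : F) * E₂) * (x - (d : F) * E₃) →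
      (∀ v, v ∉ S → Even (ord v (x - (d : F) * E₁))) ∧
      (∀ v, v ∉ S → Even (ord v (x - (d : F) * E₂))) := by
    intro x y hy h
    have z : (x - (d : F) * E₁) * (x - (d : F) * E₂) * (x - (d : F) * E₃) ≠ 0 := by
      rw [← h]; exact pow_ne_zero 2 hy
    have z3 := (mul_ne_zero_iff.mp z).2
    have z2 := (mul_ne_zero_iff.mp (mul_ne_zero_iff.mp z).1).2
    have z1 := (mul_ne_zero_iff.mp (mul_ne_zero_iff.mp z).1).1
    constructor
    · intro v hv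
      refine even_ord v z1 z2 z3 h ?_ ?_ ?_ ?_
      · rw [show x - (d : F) * E₂ - (x - (d : F) * E₁) = (d : F) * E₁ - (d : F) * E₂ by ring]
        exact hord v hv E₁ E₂ hdvd12
      · rw [show x - (d : F) * E₂ - (x - (d : F) * E₁) = (d : F) * E₁ - (d : F) * E₂ by ring]
        exact sub_ne_zero.mpr k12
      · rw [show x - (d : F) * E₃ - (x - (d : F) * E₁) = (d : F) * E₁ - (d : F) * E₃ by ring]
        exact hord v hv E₁ E₃ hdvd13
      · rw [show x - (d : F) * E₃ - (x - (d : F) * E₁) = (d : F) * E₁ - (d : F) * E₃ by ring]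
        exact sub_ne_zero.mpr k13
    · intro v hv
      refine even_ord v z2 z1 z3 (y := y) (by rw [h]; ring) ?_ ?_ ?_ ?_
      · rw [show x - (d : F) * E₁ - (x - (d : F) * E₂) = (d : F) * E₂ - (d : F) * E₁ by ring]
        exact hord v hv E₂ E₁ hdvd21
      · rw [show x - (d : F) * E₁ - (x - (d : F) * E₂) = (d : F) * E₂ - (d : F) * E₁ by ring]
        exact sub_ne_zero.mpr k12.symm
      · rw [show x - (d : F) * E₃ - (x - (d : F) * E₂) = (d : F) * E₂ - (d : F) * E₃ by ring]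
        exact hord v hv E₂ E₃ hdvd23
      · rw [show x - (d : F) * E₃ - (x - (d : F) * E₂) = (d : F) * E₂ - (d : F) * E₃ by ring]
        exact sub_ne_zero.mpr k23
  have h2F : (2 : F) ≠ 0 := two_ne_zero
  have key := card_quotG cl (fun x => ∀ v, v ∉ S → Even (ord v x)) h2F k12 k13 k23
    (fun x x' hx hx' hX hX' => hcl x x' hx hx' hX hX') hP
  refine ⟨key.1, key.2.trans ?_⟩
  rw [hcard]
  gcongr
  exact one_le_two

theorem fg_and_rank (E₁ E₂ E₃ : 𝓞 F) (h12 : E₁ ≠ E₂) (h13 : E₁ ≠ E₃) (h23 : E₂ ≠ E₃) :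
    ∃ a b : ℕ, ∀ d : ℤ, d ≠ 0 →
      AddGroup.FG (PtG ((d : F) * E₁) ((d : F) * E₂) ((d : F) * E₃)) ∧
      Module.finrank ℤ (PtG ((d : F) * E₁) ((d : F) * E₂) ((d : F) * E₃)) ≤
        a + b * d.natAbs.primeFactors.card := by
  obtain ⟨A, c, h⟩ := card_bound E₁ E₂ E₃ h12 h13 h23
  refine ⟨2 * (c + A + 2), 2 * Module.finrank ℚ F, fun d hd => ?_⟩
  obtain ⟨h1, h2⟩ := h d hd
  have hdF : (d : F) ≠ 0 := by exact_mod_cast hd
  have hcoe : ∀ {a b : 𝓞 F}, a ≠ b → (a : F) ≠ (b : F) := by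
    intro a b hab h
    exact hab (RingOfIntegers.coe_injective h)
  have k12 : (d : F) * E₁ ≠ (d : F) * E₂ := fun h => hcoe h12 (mul_left_cancel₀ hdF h)
  have k13 : (d : F) * E₁ ≠ (d : F) * E₃ := fun h => hcoe h13 (mul_left_cancel₀ hdF h)
  have k23 : (d : F) * E₂ ≠ (d : F) * E₃ := fun h => hcoe h23 (mul_left_cancel₀ hdF h)
  have hell : (Cg ((d : F) * E₁) ((d : F) * E₂) ((d : F) * E₃)).IsElliptic := by
    refine ⟨?_⟩
    rw [cg_delta, isUnit_iff_ne_zero]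
    exact mul_ne_zero (by norm_num) (pow_ne_zero 2 (mul_ne_zero (mul_ne_zero
      (sub_ne_zero.mpr k12) (sub_ne_zero.mpr k13)) (sub_ne_zero.mpr k23)))
  have hfg : AddGroup.FG (PtG ((d : F) * E₁) ((d : F) * E₂) ((d : F) * E₃)) :=
    CNF.fg_of_weak (Cg ((d : F) * E₁) ((d : F) * E₂) ((d : F) * E₃))
      (AddSubgroup.finiteIndex_of_finite_quotient)
  refine ⟨hfg, ?_⟩
  obtain ⟨T, _, _, ⟨e⟩⟩ := CN3.exists_equiv (PtG ((d : F) * E₁) ((d : F) * E₂) ((d : F) * E₃))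
  have h3 := (CN3.pow_rank_le h1 e).trans h2
  set r := Module.finrank ℤ (PtG ((d : F) * E₁) ((d : F) * E₂) ((d : F) * E₃))
  set k := c + d.natAbs.primeFactors.card * Module.finrank ℚ F with hk
  have h4 : 4 + (2 ^ k * A) ^ 2 ≤ 2 ^ (2 * (k + (A + 2))) := by
    have h5 : A + 2 ≤ 2 ^ (A + 2) := Nat.lt_two_pow_self.le
    have h6 : 1 ≤ 2 ^ k := Nat.one_le_two_pow
    have h7 : ∀ m : ℕ, 1 ≤ m → 4 + (m * A) ^ 2 ≤ (m * (A + 2)) ^ 2 := by
      intro m hm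
      have h8 : 1 ≤ m ^ 2 := Nat.one_le_pow _ _ hm
      nlinarith [Nat.zero_le (m ^ 2 * A)]
    calc 4 + (2 ^ k * A) ^ 2 ≤ (2 ^ k * (A + 2)) ^ 2 := h7 _ h6
      _ ≤ (2 ^ k * 2 ^ (A + 2)) ^ 2 := by gcongr
      _ = 2 ^ (2 * (k + (A + 2))) := by rw [← pow_add, ← pow_mul, mul_comm]
  have h7 : r ≤ 2 * (k + (A + 2)) := by
    by_contra hcon
    push Not at hcon
    have h8 := Nat.pow_lt_pow_right (a := 2) (by norm_num) hcon
    omega
  calc r ≤ 2 * (k + (A + 2)) := h7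
    _ = 2 * (c + A + 2) + 2 * Module.finrank ℚ F * d.natAbs.primeFactors.card := by
      rw [hk]; ring

end NF

/-- The quadratic twist by `d` of `y² = x³ + a₂ x² + a₄ x + a₆`. -/
def twistBy (W : WeierstrassCurve ℤ) (d : ℤ) : WeierstrassCurve ℤ :=
  ⟨0, d * W.a₂, 0, d ^ 2 * W.a₄, d ^ 3 * W.a₆⟩

/-- Splitting field of the cubic. -/
theorem exists_field (W : WeierstrassCurve ℤ) (h1 : W.a₁ = 0) (h3 : W.a₃ = 0) (hΔ : W.Δ ≠ 0) :
    ∃ (F : Type) (_ : Field F) (_ : NumberField F) (E₁ E₂ E₃ : 𝓞 F), E₁ ≠ E₂ ∧ E₁ ≠ E₃ ∧ E₂ ≠ E₃ ∧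
      (W.a₂ : F) = -((E₁ : F) + E₂ + E₃) ∧ (W.a₄ : F) = (E₁ : F) * E₂ + E₁ * E₃ + E₂ * E₃ ∧
      (W.a₆ : F) = -((E₁ : F) * E₂ * E₃) := by
  let P : Cubic ℚ := ⟨1, W.a₂, W.a₄, W.a₆⟩
  let F := P.toPoly.SplittingField
  have hN : NumberField F := ⟨⟩
  have ha : P.a ≠ 0 := one_ne_zero
  obtain ⟨x, y, z, hr⟩ := (Cubic.splits_iff_roots_eq_three (φ := algebraMap ℚ F) ha).mp
    (Polynomial.SplittingField.splits P.toPoly)
  have hb := Cubic.b_eq_three_roots ha hr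
  have hc := Cubic.c_eq_three_roots ha hr
  have hd := Cubic.d_eq_three_roots ha hr
  have e2 : (W.a₂ : F) = -(x + y + z) := by
    have : algebraMap ℚ F P.b = (W.a₂ : F) := by simp [P]
    rw [← this, hb]
    simp [P]
  have e4 : (W.a₄ : F) = x * y + x * z + y * z := by
    have : algebraMap ℚ F P.c = (W.a₄ : F) := by simp [P]
    rw [← this, hc]
    simp [P]
  have e6 : (W.a₆ : F) = -(x * y * z) := by
    have : algebraMap ℚ F P.d = (W.a₆ : F) := by simp [P]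
    rw [← this, hd]
    simp [P]
  have hx : _root_.IsIntegral ℤ x := int_root W.a₂ W.a₄ W.a₆ e2 e4 e6 (by ring)
  have hy : _root_.IsIntegral ℤ y := int_root W.a₂ W.a₄ W.a₆ e2 e4 e6 (by ring)
  have hz : _root_.IsIntegral ℤ z := int_root W.a₂ W.a₄ W.a₆ e2 e4 e6 (by ring)
  have hΔF : (16 : F) * ((x - y) * (x - z) * (y - z)) ^ 2 = ((W.Δ : ℤ) : F) :=
    (delta_cast W h1 h3 e2 e4 e6).symm
  have hne : (x - y) * (x - z) * (y - z) ≠ 0 := by
    intro h
    rw [h] at hΔF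
    apply hΔ
    have : ((W.Δ : ℤ) : F) = 0 := by rw [← hΔF]; ring
    exact_mod_cast this
  refine ⟨F, inferInstance, hN, ⟨x, hx⟩, ⟨y, hy⟩, ⟨z, hz⟩, ?_, ?_, ?_, e2, e4, e6⟩
  · intro h
    have : x = y := congrArg Subtype.val h
    exact hne (by rw [this]; ring)
  · intro h
    have : x = z := congrArg Subtype.val h
    exact hne (by rw [this]; ring)
  · intro h
    have : y = z := congrArg Subtype.val h
    exact hne (by rw [this]; ring)

/-- **Mordell's theorem for the twists, with a bound for the rank** of an arbitrary elliptic curve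
`y² = x³ + a₂ x² + a₄ x + a₆` over `ℚ`. -/
theorem twist_fg_rank (W : WeierstrassCurve ℤ) (h1 : W.a₁ = 0) (h3 : W.a₃ = 0) (hΔ : W.Δ ≠ 0) :
    ∃ a b : ℕ, ∀ d : ℤ, d ≠ 0 →
      AddGroup.FG (MQV.Points (twistBy W d)) ∧
      Module.finrank ℤ (MQV.Points (twistBy W d)) ≤ a + b * d.natAbs.primeFactors.card := by
  classical
  obtain ⟨F, _, _, E₁, E₂, E₃, h12, h13, h23, e2, e4, e6⟩ := exists_field W h1 h3 hΔ
  obtain ⟨a, b, h⟩ := fg_and_rank E₁ E₂ E₃ h12 h13 h23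
  refine ⟨a, b, fun d hd => ?_⟩
  obtain ⟨hfg, hr⟩ := h d hd
  have hcurve : (twistBy W d).map (Int.castRingHom F) =
      Cg ((d : F) * E₁) ((d : F) * E₂) ((d : F) * E₃) := by
    ext
    · simp [twistBy, Cg]
    · simp only [twistBy, Cg, WeierstrassCurve.map_a₂, eq_intCast]
      push_cast
      rw [e2]
      ring
    · simp [twistBy, Cg]
    · simp only [twistBy, Cg, WeierstrassCurve.map_a₄, eq_intCast]
      push_cast
      rw [e4]
      ring
    · simp only [twistBy, Cg, WeierstrassCurve.map_a₆, eq_intCast]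
      push_cast
      rw [e6]
      ring
  -- points over `ℚ` inject into points over `F`
  let f : MQV.Points (twistBy W d) →+ MQV.PointsOver (twistBy W d) F :=
    Point.map (W' := (twistBy W d).toAffine) (Int.castRingHom ℚ |> fun _ => (algebraMap ℚ F).toIntAlgHom)
  have hf : Function.Injective f := Point.map_injective _
  have hfg' : AddGroup.FG (MQV.PointsOver (twistBy W d) F) := by
    unfold MQV.PointsOver
    rw [hcurve]
    exact hfg
  have hr' : Module.finrank ℤ (MQV.PointsOver (twistBy W d) F) ≤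
      a + b * d.natAbs.primeFactors.card := by
    unfold MQV.PointsOver
    rw [hcurve]
    exact hr
  have hfin : Module.Finite ℤ (MQV.PointsOver (twistBy W d) F) :=
    Module.Finite.iff_addGroup_fg.mpr hfg'
  constructor
  · rw [← Module.Finite.iff_addGroup_fg]
    exact Module.Finite.of_injective f.toIntLinearMap hf
  · exact (LinearMap.finrank_le_finrank_of_injective (f := f.toIntLinearMap) hf).trans hr'

end Pool.Agent.W92892cH77
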