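import Mathlib

/-!
The conjugation of a quadratic extension.
-/

set_option autoImplicit false

namespace Pool.Agent.W92892cH77

variable {F L : Type*} [Field F] [Field L] [Algebra F L]

theorem quad_unique {s : L} (hs : ∀ y : F, algebraMap F L y ≠ s) {a b c d : F}
    (h : algebraMap F L a + algebraMap F L b * s = algebraMap F L c + algebraMap F L d * s) :
    a = c ∧ b = d := by
  have hbd : b = d := by
    by_contra hne
    have hbd : b - d ≠ 0 := sub_ne_zero.mpr hne
    have hbd' : algebraMap F L (b - d) ≠ 0 := by
      rw [Ne, FaithfulSMul.algebraMap_eq_zero_iff]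
      exact hbd
    apply hs ((c - a) / (b - d))
    rw [map_div₀, div_eq_iff hbd', map_sub, map_sub]
    linear_combination -h
  refine ⟨?_, hbd⟩
  rw [hbd] at h
  exact (algebraMap F L).injective (add_right_cancel h)

theorem exists_conj [CharZero F] (s : L) (v : F) (hv : s ^ 2 = algebraMap F L v)
    (hs : ∀ y : F, algebraMap F L y ≠ s)
    (hall : ∀ z : L, ∃ a b : F, z = algebraMap F L a + algebraMap F L b * s) :
    ∃ σ : L →ₐ[F] L, (∀ x, σ (σ x) = x) ∧ (∀ x, σ x = x → ∃ y, algebraMap F L y = x) ∧
      σ s = -s := by
  choose A B hAB using hall
  have key : ∀ (z : L) (a b : F), z = algebraMap F L a + algebraMap F L b * s →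
      A z = a ∧ B z = b := by
    intro z a b h
    exact quad_unique hs ((hAB z).symm.trans h)
  have hA0 : ∀ y : F, A (algebraMap F L y) = y ∧ B (algebraMap F L y) = 0 := by
    intro y
    exact key _ _ _ (by rw [map_zero, zero_mul, add_zero])
  have hmul : ∀ x y : L, A (x * y) = A x * A y + B x * B y * v ∧
      B (x * y) = A x * B y + B x * A y := by
    intro x y
    apply key
    conv_lhs => rw [hAB x, hAB y]
    simp only [map_add, map_mul]
    rw [← hv]
    ring
  have hadd : ∀ x y : L, A (x + y) = A x + A y ∧ B (x + y) = B x + B y := by
    intro x y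
    apply key
    conv_lhs => rw [hAB x, hAB y]
    simp only [map_add]
    ring
  let σ : L →ₐ[F] L :=
    { toFun := fun z => algebraMap F L (A z) - algebraMap F L (B z) * s
      map_one' := by
        have := hA0 1
        rw [map_one] at this
        rw [this.1, this.2]
        simp
      map_mul' := by
        intro x y
        rw [(hmul x y).1, (hmul x y).2]
        simp only [map_add, map_mul]
        rw [← hv]
        ring
      map_zero' := by
        have := hA0 0
        rw [map_zero] at this
        rw [this.1, this.2]
        simp
      map_add' := by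
        intro x y
        rw [(hadd x y).1, (hadd x y).2]
        simp only [map_add]
        ring
      commutes' := by
        intro y
        show algebraMap F L (A (algebraMap F L y)) - algebraMap F L (B (algebraMap F L y)) * s = _
        rw [(hA0 y).1, (hA0 y).2]
        simp }
  have hσ : ∀ z, σ z = algebraMap F L (A z) - algebraMap F L (B z) * s := fun z => rfl
  have hss : σ s = -s := by
    have := key s 0 1 (by simp)
    rw [hσ, this.1, this.2]
    simp
  refine ⟨σ, ?_, ?_, hss⟩
  · intro x
    conv_lhs => rw [hσ x]
    rw [map_sub, map_mul, AlgHom.commutes, AlgHom.commutes, hss]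
    conv_rhs => rw [hAB x]
    ring
  · intro x hx
    refine ⟨A x, ?_⟩
    rw [hσ] at hx
    have h2 : algebraMap F L (A x) + algebraMap F L (-B x) * s =
        algebraMap F L (A x) + algebraMap F L (B x) * s := by
      rw [← hAB x, map_neg]
      linear_combination hx
    have h3 := (quad_unique hs h2).2
    have h4 : B x = 0 := by
      have h5 : (2 : F) * B x = 0 := by linear_combination -h3
      rcases mul_eq_zero.mp h5 with h | h
      · exact absurd h two_ne_zero
      · exact h
    conv_rhs => rw [hAB x]
    rw [h4]
    simp

end Pool.Agent.W92892cH77
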