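import Pool.Agent.W_92892c_h77.Split

/-!
The field generated by a coset, and its splitting.
-/

set_option autoImplicit false

namespace Pool.Agent.W92892cH77

open MQV

theorem mem_of_sq {K : IntermediateField ℚ ℝ} {x y : ℝ} (hy : y ∈ K) (hy0 : y ≠ 0) {m : ℤ}
    (h : (x * y) ^ 2 = ((m * m : ℤ) : ℝ)) : x ∈ K := by
  have h1 : (x * y) ^ 2 = (m : ℝ) ^ 2 := by rw [h]; push_cast; ring
  have hm : (m : ℝ) ∈ K := by
    have : ((m : ℚ) : ℝ) ∈ K := K.algebraMap_mem (m : ℚ)
    simpa using this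
  rcases sq_eq_sq_iff_eq_or_eq_neg.mp h1 with h2 | h2
  · have : x = m / y := by field_simp; exact h2
    rw [this]
    exact K.div_mem hm hy
  · have : x = -m / y := by field_simp; exact h2
    rw [this]
    exact K.div_mem (K.neg_mem hm) hy

theorem sqrt_sq_int {n : ℤ} (hn : 0 < n) : (Real.sqrt n) ^ 2 = ((n : ℤ) : ℝ) :=
  Real.sq_sqrt (by exact_mod_cast hn.le)

theorem sqrt_int_ne {n : ℤ} (hn : 0 < n) : Real.sqrt (n : ℝ) ≠ 0 :=
  (Real.sqrt_pos.mpr (by exact_mod_cast hn)).ne'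

theorem sqrt_mem_mqField {d e : ℤ} {C : Finset ℤ} (he : e ∈ C) (h : 0 < d * e) :
    Real.sqrt ((d * e : ℤ) : ℝ) ∈ mqField d C :=
  IntermediateField.subset_adjoin ℚ _ ⟨e, he, sqrt_sq_int h⟩

theorem Split.sub1 {d f : ℤ} {C C₁ C₂ : Finset ℤ} (h : Split d f C C₁ C₂) : C₁ ⊆ C := by
  rw [h.union]; exact Finset.subset_union_left

theorem Split.sub2 {d f : ℤ} {C C₁ C₂ : Finset ℤ} (h : Split d f C C₁ C₂) : C₂ ⊆ C := by
  rw [h.union]; exact Finset.subset_union_right

theorem Split.field_eq {d f : ℤ} {C C₁ C₂ : Finset ℤ} (h : Split d f C C₁ C₂) (hp : Pos C) :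
    mqField f C₂ = mqField d C₁ := by
  have hd := (hp d (h.sub1 h.d1)).2
  have hf := (hp f (h.sub2 h.f2)).2
  apply le_antisymm
  · apply IntermediateField.adjoin_le_iff.mpr
    rintro x ⟨g, hg, hx⟩
    obtain ⟨e, he, m, hm⟩ := h.to1 g hg
    have he' := (hp e (h.sub1 he)).2
    apply mem_of_sq (sqrt_mem_mqField he (mul_pos hd he')) (sqrt_int_ne (mul_pos hd he')) (m := m)
    rw [mul_pow, hx, sqrt_sq_int (mul_pos hd he'), ← hm]
    push_cast
    ring
  · apply IntermediateField.adjoin_le_iff.mpr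
    rintro x ⟨e, he, hx⟩
    obtain ⟨g, hg, m, hm⟩ := h.to2 e he
    have hg' := (hp g (h.sub2 hg)).2
    apply mem_of_sq (sqrt_mem_mqField hg (mul_pos hf hg')) (sqrt_int_ne (mul_pos hf hg')) (m := m)
    rw [mul_pow, hx, sqrt_sq_int (mul_pos hf hg'), ← hm]
    push_cast
    ring

theorem mqField_mono {d : ℤ} {C D : Finset ℤ} (h : C ⊆ D) : mqField d C ≤ mqField d D := by
  apply IntermediateField.adjoin.mono
  rintro x ⟨e, he, hx⟩
  exact ⟨e, h he, hx⟩

/-- The field `F(s)`, `s ^ 2 ∈ F`, `s ∉ F`. -/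
def quadExt (F : IntermediateField ℚ ℝ) (s : ℝ) (v : ℝ) (hv : v ∈ F) (hs : s ^ 2 = v)
    (hsF : s ∉ F) : IntermediateField ℚ ℝ where
  carrier := {z | ∃ a ∈ F, ∃ b ∈ F, z = a + b * s}
  mul_mem' := by
    rintro x y ⟨a, ha, b, hb, rfl⟩ ⟨c, hc, d, hd, rfl⟩
    refine ⟨a * c + b * d * v, F.add_mem (F.mul_mem ha hc) (F.mul_mem (F.mul_mem hb hd) hv),
      a * d + b * c, F.add_mem (F.mul_mem ha hd) (F.mul_mem hb hc), ?_⟩
    rw [← hs]
    ring
  add_mem' := by
    rintro x y ⟨a, ha, b, hb, rfl⟩ ⟨c, hc, d, hd, rfl⟩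
    exact ⟨a + c, F.add_mem ha hc, b + d, F.add_mem hb hd, by ring⟩
  algebraMap_mem' := by
    intro q
    exact ⟨_, F.algebraMap_mem q, 0, F.zero_mem, by ring⟩
  inv_mem' := by
    rintro x ⟨a, ha, b, hb, rfl⟩
    by_cases h0 : a + b * s = 0
    · refine ⟨0, F.zero_mem, 0, F.zero_mem, ?_⟩
      rw [h0]
      simp
    · have h1 : a - b * s ≠ 0 := by
        intro h1
        by_cases hb0 : b = 0
        · apply h0
          rw [hb0] at h1 ⊢
          linarith
        · apply hsF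
          have : s = a / b := by
            field_simp
            linarith
          rw [this]
          exact F.div_mem ha hb
      have hn : a * a - b * b * v ∈ F :=
        F.sub_mem (F.mul_mem ha ha) (F.mul_mem (F.mul_mem hb hb) hv)
      have hne : a * a - b * b * v ≠ 0 := by
        have : a * a - b * b * v = (a + b * s) * (a - b * s) := by rw [← hs]; ring
        rw [this]
        exact mul_ne_zero h0 h1
      refine ⟨a / (a * a - b * b * v), F.div_mem ha hn, -b / (a * a - b * b * v),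
        F.div_mem (F.neg_mem hb) hn, ?_⟩
      rw [inv_eq_one_div, div_eq_iff h0]
      have e : (a / (a * a - b * b * v) + -b / (a * a - b * b * v) * s) * (a + b * s) =
          (a * a - b * b * s ^ 2) / (a * a - b * b * v) := by ring
      rw [e, hs, div_self hne]

theorem Split.mem_iff {d f : ℤ} {C C₁ C₂ : Finset ℤ} (h : Split d f C C₁ C₂) (hp : Pos C)
    (hsF : Real.sqrt ((d * f : ℤ) : ℝ) ∉ mqField d C₁) {z : ℝ} (hz : z ∈ mqField d C) :
    ∃ a ∈ mqField d C₁, ∃ b ∈ mqField d C₁, z = a + b * Real.sqrt ((d * f : ℤ) : ℝ) := by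
  have hd := (hp d (h.sub1 h.d1)).2
  have hf := (hp f (h.sub2 h.f2)).2
  have hdf := mul_pos hd hf
  set s := Real.sqrt ((d * f : ℤ) : ℝ) with hs
  have hs2 : s ^ 2 = ((d * f : ℤ) : ℝ) := sqrt_sq_int hdf
  have hs0 : s ≠ 0 := sqrt_int_ne hdf
  have hint : ∀ n : ℤ, (n : ℝ) ∈ mqField d C₁ := by
    intro n
    have : ((n : ℚ) : ℝ) ∈ mqField d C₁ := (mqField d C₁).algebraMap_mem (n : ℚ)
    simpa using this
  have hle : mqField d C ≤ quadExt (mqField d C₁) s _ (hint (d * f)) hs2 hsF := by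
    apply IntermediateField.adjoin_le_iff.mpr
    rintro x ⟨e, he, hx⟩
    rw [h.union] at he
    rcases Finset.mem_union.mp he with he1 | he2
    · exact ⟨x, IntermediateField.subset_adjoin ℚ _ ⟨e, he1, hx⟩, 0, (mqField d C₁).zero_mem,
        by ring⟩
    · obtain ⟨e', he', m, hm⟩ := h.to1 e he2
      have hee := (hp e' (h.sub1 he')).2
      have hy := sqrt_mem_mqField he' (mul_pos hd hee)
      have hy0 := sqrt_int_ne (mul_pos hd hee)
      have hy2 := sqrt_sq_int (mul_pos hd hee)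
      have hxs : x / s ∈ mqField d C₁ := by
        have h1 : x / s * f ∈ mqField d C₁ := by
          apply mem_of_sq hy hy0 (m := m)
          have hff : (f : ℝ) ≠ 0 := by exact_mod_cast hf.ne'
          have hdd : (d : ℝ) ≠ 0 := by exact_mod_cast hd.ne'
          rw [mul_pow, mul_pow, div_pow, hx, hs2, hy2, ← hm]
          push_cast
          field_simp
        have h2 : x / s = x / s * f / f := by
          have hff : (f : ℝ) ≠ 0 := by exact_mod_cast hf.ne'
          field_simp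
        rw [h2]
        exact (mqField d C₁).div_mem h1 (hint f)
      exact ⟨0, (mqField d C₁).zero_mem, x / s, hxs, by field_simp; ring⟩
  exact hle hz

end Pool.Agent.W92892cH77
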