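import Pool.Agent.W_92892c_h77.Quad
import Pool.Agent.W_92892c_h77.Conj
import Pool.Agent.W_92892c_h77.Fields

/-!
The rank of `y² = x³ - d² x` over the real multiquadratic field of a coset is the sum of the ranks of
the twists.
-/

set_option autoImplicit false

namespace Pool.Agent.W92892cH77

open MQV WeierstrassCurve WeierstrassCurve.Affine

/-- Rank is invariant under isomorphism of fields. -/
theorem rank_ringEquiv (W : WeierstrassCurve ℤ) {K K' : Type} [Field K] [Field K']
    [DecidableEq K] [DecidableEq K'] (e : K ≃+* K') :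
    Module.rank ℤ (PointsOver W K) = Module.rank ℤ (PointsOver W K') := by
  let f : K →ₐ[ℤ] K' := e.toRingHom.toIntAlgHom
  let g : K' →ₐ[ℤ] K := e.symm.toRingHom.toIntAlgHom
  let F : (W⁄K).Point →+ (W⁄K').Point := Point.map f
  let G : (W⁄K').Point →+ (W⁄K).Point := Point.map g
  have hFG : ∀ P, F (G P) = P := by
    rintro (_ | ⟨x, y, h⟩)
    · rfl
    · show Point.some (f (g x)) (f (g y)) _ = Point.some x y h
      simp only [Point.some.injEq]
      exact ⟨e.apply_symm_apply x, e.apply_symm_apply y⟩
  have hb : Function.Bijective F := ⟨Point.map_injective f, fun P => ⟨G P, hFG P⟩⟩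
  exact LinearEquiv.rank_eq (AddEquiv.ofBijective F hb).toIntLinearEquiv

theorem rank_field_eq (W : WeierstrassCurve ℤ) {K K' : IntermediateField ℚ ℝ} (h : K = K') :
    Module.rank ℤ (PointsOver W K) = Module.rank ℤ (PointsOver W K') := by
  subst h
  rfl

theorem mqField_singleton (d : ℤ) : mqField d {d} = ⊥ := by
  apply le_antisymm _ bot_le
  apply IntermediateField.adjoin_le_iff.mpr
  rintro x ⟨e, he, hx⟩
  rw [Finset.mem_singleton] at he
  subst he
  have hd : ∀ n : ℤ, (n : ℝ) ∈ (⊥ : IntermediateField ℚ ℝ) := by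
    intro n
    have : ((n : ℚ) : ℝ) ∈ (⊥ : IntermediateField ℚ ℝ) :=
      (⊥ : IntermediateField ℚ ℝ).algebraMap_mem (n : ℚ)
    simpa using this
  have h1 : x ^ 2 = (e : ℝ) ^ 2 := by
    rw [hx]
    push_cast
    ring
  rcases sq_eq_sq_iff_eq_or_eq_neg.mp h1 with h | h
  · rw [h]; exact hd e
  · rw [h]; exact neg_mem (hd e)

/-- Kummer theory: an integer whose square root is in the field is, up to squares, `d e`. -/
theorem kummer : ∀ (n : ℕ) (C : Finset ℤ), C.card ≤ n → IsCoset C → Pos C → ∀ d ∈ C,
    ∀ N : ℤ, 0 < N → ∀ r ∈ mqField d C, r ^ 2 = (N : ℝ) → ∃ e ∈ C, IsSquare (N * d * e) := by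
  intro n
  induction n with
  | zero =>
    intro C hC hc _ d hd
    simp only [Nat.le_zero, Finset.card_eq_zero] at hC
    rw [hC] at hd
    simp at hd
  | succ n ih =>
    intro C hC hc hp d hd N hN r hr hrN
    by_cases hsing : C = {d}
    · rw [hsing, mqField_singleton] at hr
      rw [IntermediateField.mem_bot] at hr
      obtain ⟨q, hq⟩ := hr
      refine ⟨d, hd, ?_⟩
      have h1 : IsSquare N := by
        rw [← Rat.isSquare_intCast_iff]
        refine ⟨q, ?_⟩
        have h2 : ((q : ℚ) : ℝ) = r := hq
        have : ((N : ℚ) : ℝ) = ((q * q : ℚ) : ℝ) := by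
          push_cast
          rw [h2, ← hrN]
          ring
        exact_mod_cast this
      obtain ⟨m, hm⟩ := h1
      exact ⟨m * d, by rw [hm]; ring⟩
    · obtain ⟨f, C₁, C₂, h⟩ := exists_split hc hp hd hsing
      have hp1 : Pos C₁ := fun x hx => hp x (h.sub1 hx)
      have hp2 : Pos C₂ := fun x hx => hp x (h.sub2 hx)
      have hd0 := (hp d (h.sub1 h.d1)).2
      have hf0 := (hp f (h.sub2 h.f2)).2
      have hdf := mul_pos hd0 hf0
      have hcard : C₁.card ≤ n := by
        have h1 : C.card = C₁.card + C₂.card := by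
          rw [h.union, Finset.card_union_of_disjoint h.disj]
        have h2 : 0 < C₂.card := Finset.card_pos.mpr ⟨f, h.f2⟩
        omega
      have hsF : Real.sqrt ((d * f : ℤ) : ℝ) ∉ mqField d C₁ := by
        intro hs
        obtain ⟨e, he, hsq⟩ := ih C₁ hcard h.c1 hp1 d h.d1 (d * f) hdf _ hs (sqrt_sq_int hdf)
        have h1 : IsSquare (f * e) := isSquare_cancel (y := d) hd0.ne' (sq_congr hsq (by ring))
        have := eq_of_sq hp (h.sub2 h.f2) (h.sub1 he) h1
        exact h.f1 (this ▸ he)
      obtain ⟨a, ha, b, hb, hab⟩ := h.mem_iff hp hsF hr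
      set s := Real.sqrt ((d * f : ℤ) : ℝ) with hs
      have hs2 : s ^ 2 = ((d * f : ℤ) : ℝ) := sqrt_sq_int hdf
      have hint : ∀ n : ℤ, (n : ℝ) ∈ mqField d C₁ := by
        intro n
        have : ((n : ℚ) : ℝ) ∈ mqField d C₁ := (mqField d C₁).algebraMap_mem (n : ℚ)
        simpa using this
      have h0 : 2 * a * b = 0 := by
        by_contra hne
        apply hsF
        have h1 : s = ((N : ℝ) - a ^ 2 - b ^ 2 * ((d * f : ℤ) : ℝ)) / (2 * a * b) := by
          rw [eq_div_iff hne, ← hrN, ← hs2, hab]
          ring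
        rw [h1]
        apply (mqField d C₁).div_mem
        · apply (mqField d C₁).sub_mem
          · exact (mqField d C₁).sub_mem (hint N) ((mqField d C₁).pow_mem ha 2)
          · exact (mqField d C₁).mul_mem ((mqField d C₁).pow_mem hb 2) (hint _)
        · have h2 : (2 : ℝ) ∈ mqField d C₁ := by
            have := hint 2
            simpa using this
          exact (mqField d C₁).mul_mem ((mqField d C₁).mul_mem h2 ha) hb
      rcases mul_eq_zero.mp h0 with h1 | h1
      · have ha0 : a = 0 := by
          rcases mul_eq_zero.mp h1 with h | h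
          · exact absurd h two_ne_zero
          · exact h
        -- `r s` is in the smaller field
        have hrs : b * ((d * f : ℤ) : ℝ) ∈ mqField d C₁ := (mqField d C₁).mul_mem hb (hint _)
        have hrs2 : (b * ((d * f : ℤ) : ℝ)) ^ 2 = ((N * (d * f) : ℤ) : ℝ) := by
          have : (b * ((d * f : ℤ) : ℝ)) ^ 2 = (b * s) ^ 2 * ((d * f : ℤ) : ℝ) := by
            rw [mul_pow, mul_pow, hs2]; ring
          rw [this]
          have h2 : b * s = r := by rw [hab, ha0]; ring
          rw [h2, hrN]
          push_cast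
          ring
        obtain ⟨e, he, hsq⟩ := ih C₁ hcard h.c1 hp1 d h.d1 (N * (d * f)) (mul_pos hN hdf) _ hrs
          hrs2
        obtain ⟨g, hg, hsg⟩ := h.to2 e he
        refine ⟨g, h.sub2 hg, ?_⟩
        have he0 := (hp1 e he).2
        exact isSquare_cancel (y := d * f * e) (mul_pos hdf he0).ne'
          (sq_congr (hsq.mul hsg) (by ring))
      · have hra : r = a := by rw [hab, h1]; ring
        obtain ⟨e, he, hsq⟩ := ih C₁ hcard h.c1 hp1 d h.d1 N hN a ha (by rw [← hra]; exact hrN)
        exact ⟨e, h.sub1 he, hsq⟩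

theorem curve_scale {K : Type} [Field K] [DecidableEq K] {d f : ℤ} {u : K} (hu : u ≠ 0)
    (h : u ^ 2 * (d : K) = (f : K)) :
    IsScale u (WeierstrassCurve.baseChange (curve d) K)
      (WeierstrassCurve.baseChange (curve f) K) := by
  refine ⟨hu, ?_, ?_, ?_, ?_, ?_⟩
  · simp [WeierstrassCurve.baseChange, curve]
  · simp [WeierstrassCurve.baseChange, curve]
  · simp [WeierstrassCurve.baseChange, curve]
  · simp only [WeierstrassCurve.baseChange, curve, WeierstrassCurve.map_a₄]
    rw [map_neg, map_neg, map_pow, map_pow, algebraMap_int_eq, eq_intCast, eq_intCast, ← h]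
    ring
  · simp [WeierstrassCurve.baseChange, curve]

/-- **Rank over a real multiquadratic field.** -/
theorem rank_mqField : ∀ (n : ℕ) (C : Finset ℤ), C.card ≤ n → IsCoset C → Pos C → ∀ d ∈ C,
    Module.rank ℤ (PointsOver (curve d) (mqField d C)) =
      ∑ e ∈ C, Module.rank ℤ (Points (curve e)) := by
  intro n
  induction n with
  | zero =>
    intro C hC hc _ d hd
    simp only [Nat.le_zero, Finset.card_eq_zero] at hC
    rw [hC] at hd
    simp at hd
  | succ n ih =>
    intro C hC hc hp d hd
    by_cases hsing : C = {d}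
    · rw [hsing, Finset.sum_singleton]
      rw [rank_field_eq _ (mqField_singleton d)]
      exact rank_ringEquiv (curve d) (IntermediateField.botEquiv ℚ ℝ).toRingEquiv
    · obtain ⟨f, C₁, C₂, h⟩ := exists_split hc hp hd hsing
      have hp1 : Pos C₁ := fun x hx => hp x (h.sub1 hx)
      have hp2 : Pos C₂ := fun x hx => hp x (h.sub2 hx)
      have hd0 := (hp d (h.sub1 h.d1)).2
      have hf0 := (hp f (h.sub2 h.f2)).2
      have hdf := mul_pos hd0 hf0
      have hcards : C.card = C₁.card + C₂.card := by
        rw [h.union, Finset.card_union_of_disjoint h.disj]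
      have hcard1 : C₁.card ≤ n := by
        have h2 : 0 < C₂.card := Finset.card_pos.mpr ⟨f, h.f2⟩
        omega
      have hcard2 : C₂.card ≤ n := by
        have h2 : 0 < C₁.card := Finset.card_pos.mpr ⟨d, h.d1⟩
        omega
      have hsF : Real.sqrt ((d * f : ℤ) : ℝ) ∉ mqField d C₁ := by
        intro hs
        obtain ⟨e, he, hsq⟩ := kummer _ C₁ le_rfl h.c1 hp1 d h.d1 (d * f) hdf _ hs
          (sqrt_sq_int hdf)
        have h1 : IsSquare (f * e) := isSquare_cancel (y := d) hd0.ne' (sq_congr hsq (by ring))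
        have := eq_of_sq hp (h.sub2 h.f2) (h.sub1 he) h1
        exact h.f1 (this ▸ he)
      have hle : mqField d C₁ ≤ mqField d C := mqField_mono h.sub1
      letI : Algebra (mqField d C₁) (mqField d C) :=
        (IntermediateField.inclusion hle).toRingHom.toAlgebra
      have halg : ∀ y : mqField d C₁, ((algebraMap (mqField d C₁) (mqField d C) y : mqField d C) : ℝ)
          = (y : ℝ) := fun y => rfl
      let s : mqField d C := ⟨Real.sqrt ((d * f : ℤ) : ℝ), sqrt_mem_mqField (h.sub2 h.f2) hdf⟩
      have hs2 : s ^ 2 = algebraMap (mqField d C₁) (mqField d C) ((d * f : ℤ) : mqField d C₁) := by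
        apply Subtype.ext
        rw [halg]
        show (Real.sqrt ((d * f : ℤ) : ℝ)) ^ 2 = _
        rw [sqrt_sq_int hdf]
        simp
      have hs' : ∀ y : mqField d C₁, algebraMap (mqField d C₁) (mqField d C) y ≠ s := by
        intro y hy
        apply hsF
        have := congrArg Subtype.val hy
        have h2 : (y : ℝ) = Real.sqrt ((d * f : ℤ) : ℝ) := this
        rw [← h2]
        exact y.2
      have hall : ∀ z : mqField d C, ∃ a b : mqField d C₁, z =
          algebraMap (mqField d C₁) (mqField d C) a + algebraMap (mqField d C₁) (mqField d C) b * s := by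
        intro z
        obtain ⟨a, ha, b, hb, hab⟩ := h.mem_iff hp hsF z.2
        exact ⟨⟨a, ha⟩, ⟨b, hb⟩, Subtype.ext hab⟩
      obtain ⟨σ, hσ, hfix, hσs⟩ := exists_conj s _ hs2 hs' hall
      have hs0 : s ≠ 0 := by
        intro hs
        have := congrArg Subtype.val hs
        exact sqrt_int_ne hdf this
      have hdK : ((d : ℤ) : mqField d C) ≠ 0 := by exact_mod_cast hd0.ne'
      have hu : s / (d : mqField d C) ≠ 0 := div_ne_zero hs0 hdK
      have hs3 : s ^ 2 = ((d * f : ℤ) : mqField d C) := by rw [hs2, map_intCast]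
      have hsc := curve_scale (K := mqField d C) (d := d) (f := f) hu (by
        rw [div_pow, hs3]
        push_cast
        field_simp)
      have hσu : σ (s / (d : mqField d C)) = -(s / (d : mqField d C)) := by
        rw [map_div₀, hσs, map_intCast, neg_div]
      have key := rank_quad (F := mqField d C₁) (L := mqField d C) (curve d) (curve f) rfl rfl rfl
        rfl σ hσ hfix _ hσu hsc
      have e1 : Module.rank ℤ (PointsOver (curve d) (mqField d C₁)) =
          ∑ e ∈ C₁, Module.rank ℤ (Points (curve e)) := ih C₁ hcard1 h.c1 hp1 d h.d1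
      have e2 : Module.rank ℤ (PointsOver (curve f) (mqField d C₁)) =
          ∑ e ∈ C₂, Module.rank ℤ (Points (curve e)) := by
        rw [← rank_field_eq _ (h.field_eq hp)]
        exact ih C₂ hcard2 h.c2 hp2 f h.f2
      have hsum : ∑ e ∈ C, Module.rank ℤ (Points (curve e)) =
          ∑ e ∈ C₁, Module.rank ℤ (Points (curve e)) +
            ∑ e ∈ C₂, Module.rank ℤ (Points (curve e)) := by
        rw [h.union]
        exact Finset.sum_union h.disj
      rw [hsum, ← e1, ← e2]
      exact key

/-- **Rank over a real multiquadratic field**, as a natural number. -/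
theorem finrank_mqField (C : Finset ℤ) (hc : IsCoset C) (hp : ∀ x ∈ C, x ∈ Twists true) (d : ℤ)
    (hd : d ∈ C) (hfin : ∀ e ∈ C, Module.Finite ℤ (Points (curve e))) :
    Module.finrank ℤ (PointsOver (curve d) (mqField d C)) =
      ∑ e ∈ C, Module.finrank ℤ (Points (curve e)) := by
  have hp' : Pos C := fun x hx => ⟨(hp x hx).1, (hp x hx).2 rfl⟩
  have h := rank_mqField _ C le_rfl hc hp' d hd
  have h2 : Module.rank ℤ (PointsOver (curve d) (mqField d C)) =
      ((∑ e ∈ C, Module.finrank ℤ (Points (curve e)) : ℕ) : Cardinal) := by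
    rw [h]
    push_cast
    apply Finset.sum_congr rfl
    intro e he
    have := hfin e he
    exact (Module.finrank_eq_rank ℤ (Points (curve e))).symm
  rw [Module.finrank, h2, Cardinal.toNat_natCast]

end Pool.Agent.W92892cH77
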