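import Pool.Agent.W_92892c_h77.FieldsG
import Pool.Agent.W_92892c_h77.Rank
import Pool.Agent.W_92892c_h77.MWG

/-!
The rank of the twists of an arbitrary elliptic curve over `ℚ` over the multiquadratic field of a coset
is the sum of the ranks of the twists.
-/

set_option autoImplicit false
set_option linter.unusedSectionVars false

namespace Pool.Agent.W92892cH77

open MQV WeierstrassCurve WeierstrassCurve.Affine

variable {Ω : Type} [Field Ω] [CharZero Ω]

theorem rank_field_eqG [DecidableEq Ω] (W : WeierstrassCurve ℤ) {K K' : IntermediateField ℚ Ω}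
    (h : K = K') : Module.rank ℤ (PointsOver W K) = Module.rank ℤ (PointsOver W K') := by
  subst h
  rfl

theorem mqG_singleton (d : ℤ) : mqG Ω d {d} = ⊥ := by
  apply le_antisymm _ bot_le
  apply IntermediateField.adjoin_le_iff.mpr
  rintro x ⟨e, he, hx⟩
  rw [Finset.mem_singleton] at he
  subst he
  have h1 : x ^ 2 = (e : Ω) ^ 2 := by
    rw [hx]
    push_cast
    ring
  rcases sq_eq_sq_iff_eq_or_eq_neg.mp h1 with h | h
  · rw [h]; exact int_mem _ e
  · rw [h]; exact neg_mem (int_mem _ e)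

/-- Kummer theory: an integer whose square root is in the field is, up to squares, `d e`. -/
theorem kummerG : ∀ (n : ℕ) (C : Finset ℤ), C.card ≤ n → IsCoset C → Sqf C → HasRoots Ω C → ∀ d ∈ C,
    ∀ N : ℤ, N ≠ 0 → ∀ r ∈ mqG Ω d C, r ^ 2 = (N : Ω) → ∃ e ∈ C, IsSquare (N * d * e) := by
  intro n
  induction n with
  | zero =>
    intro C hC hc _ _ d hd
    simp only [Nat.le_zero, Finset.card_eq_zero] at hC
    rw [hC] at hd
    simp at hd
  | succ n ih =>
    intro C hC hc hp hR d hd N hN r hr hrN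
    by_cases hsing : C = {d}
    · rw [hsing, mqG_singleton] at hr
      rw [IntermediateField.mem_bot] at hr
      obtain ⟨q, hq⟩ := hr
      refine ⟨d, hd, ?_⟩
      have h1 : IsSquare N := by
        rw [← Rat.isSquare_intCast_iff]
        refine ⟨q, ?_⟩
        have h2 : ((q : ℚ) : Ω) = r := by rw [← hq]; simp
        have : ((N : ℚ) : Ω) = ((q * q : ℚ) : Ω) := by
          push_cast
          rw [h2, ← hrN]
          ring
        exact_mod_cast this
      obtain ⟨m, hm⟩ := h1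
      exact ⟨m * d, by rw [hm]; ring⟩
    · obtain ⟨f, C₁, C₂, h⟩ := exists_split' hc hp hd hsing
      have hp1 : Sqf C₁ := fun x hx => hp x (h.sub1 hx)
      have hR1 : HasRoots Ω C₁ := fun a ha b hb => hR a (h.sub1 ha) b (h.sub1 hb)
      have hd0 := (hp d (h.sub1 h.d1)).ne_zero
      have hf0 := (hp f (h.sub2 h.f2)).ne_zero
      have hdf := mul_ne_zero hd0 hf0
      have hcard : C₁.card ≤ n := by
        have h1 : C.card = C₁.card + C₂.card := by
          rw [h.union, Finset.card_union_of_disjoint h.disj]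
        have h2 : 0 < C₂.card := Finset.card_pos.mpr ⟨f, h.f2⟩
        omega
      obtain ⟨s, hs2⟩ := hR d (h.sub1 h.d1) f (h.sub2 h.f2)
      have hsF : s ∉ mqG Ω d C₁ := by
        intro hs
        obtain ⟨e, he, hsq⟩ := ih C₁ hcard h.c1 hp1 hR1 d h.d1 (d * f) hdf _ hs hs2
        have h1 : IsSquare (f * e) := isSquare_cancel (y := d) hd0 (sq_congr hsq (by ring))
        have := eq_of_sq' hp (h.sub2 h.f2) (h.sub1 he) h1
        exact h.f1 (this ▸ he)
      obtain ⟨a, ha, b, hb, hab⟩ := h.memG_iff hp hR hs2 hsF hr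
      have hint : ∀ n : ℤ, (n : Ω) ∈ mqG Ω d C₁ := fun n => int_mem _ n
      have h0 : 2 * a * b = 0 := by
        by_contra hne
        apply hsF
        have h1 : s = ((N : Ω) - a ^ 2 - b ^ 2 * ((d * f : ℤ) : Ω)) / (2 * a * b) := by
          rw [eq_div_iff hne, ← hrN, ← hs2, hab]
          ring
        rw [h1]
        apply (mqG Ω d C₁).div_mem
        · apply (mqG Ω d C₁).sub_mem
          · exact (mqG Ω d C₁).sub_mem (hint N) (pow_mem ha 2)
          · exact (mqG Ω d C₁).mul_mem (pow_mem hb 2) (hint _)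
        · have h2 : (2 : Ω) ∈ mqG Ω d C₁ := by
            have := hint 2
            exact_mod_cast this
          exact (mqG Ω d C₁).mul_mem ((mqG Ω d C₁).mul_mem h2 ha) hb
      rcases mul_eq_zero.mp h0 with h1 | h1
      · have ha0 : a = 0 := by
          rcases mul_eq_zero.mp h1 with h | h
          · exact absurd h two_ne_zero
          · exact h
        have hrs : b * ((d * f : ℤ) : Ω) ∈ mqG Ω d C₁ := (mqG Ω d C₁).mul_mem hb (hint _)
        have hrs2 : (b * ((d * f : ℤ) : Ω)) ^ 2 = ((N * (d * f) : ℤ) : Ω) := by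
          have : (b * ((d * f : ℤ) : Ω)) ^ 2 = (b * s) ^ 2 * ((d * f : ℤ) : Ω) := by
            rw [mul_pow, mul_pow, hs2]; ring
          rw [this]
          have h2 : b * s = r := by rw [hab, ha0]; ring
          rw [h2, hrN]
          push_cast
          ring
        obtain ⟨e, he, hsq⟩ := ih C₁ hcard h.c1 hp1 hR1 d h.d1 (N * (d * f)) (mul_ne_zero hN hdf) _
          hrs hrs2
        obtain ⟨g, hg, hsg⟩ := h.to2 e he
        refine ⟨g, h.sub2 hg, ?_⟩
        have he0 := (hp1 e he).ne_zero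
        exact isSquare_cancel (y := d * f * e) (mul_ne_zero hdf he0)
          (sq_congr (hsq.mul hsg) (by ring))
      · have hra : r = a := by rw [hab, h1]; ring
        obtain ⟨e, he, hsq⟩ := ih C₁ hcard h.c1 hp1 hR1 d h.d1 N hN a ha
          (by rw [← hra]; exact hrN)
        exact ⟨e, h.sub1 he, hsq⟩

theorem gcurve_scale {K : Type} [Field K] [DecidableEq K] {a2 a4 a6 d f : ℤ} {u : K} (hu : u ≠ 0)
    (h : u ^ 2 * (d : K) = (f : K)) :
    IsScale u (WeierstrassCurve.baseChange (gcurve a2 a4 a6 d) K)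
      (WeierstrassCurve.baseChange (gcurve a2 a4 a6 f) K) := by
  refine ⟨hu, ?_, ?_, ?_, ?_, ?_⟩
  · simp [WeierstrassCurve.baseChange, gcurve]
  · simp only [WeierstrassCurve.baseChange, gcurve, WeierstrassCurve.map_a₂]
    rw [map_mul, map_mul, algebraMap_int_eq, eq_intCast, eq_intCast, ← h, eq_intCast]
    ring
  · simp [WeierstrassCurve.baseChange, gcurve]
  · simp only [WeierstrassCurve.baseChange, gcurve, WeierstrassCurve.map_a₄]
    rw [map_mul, map_mul, map_pow, map_pow, algebraMap_int_eq, eq_intCast, eq_intCast, ← h,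
      eq_intCast]
    ring
  · simp only [WeierstrassCurve.baseChange, gcurve, WeierstrassCurve.map_a₆]
    rw [map_mul, map_mul, map_pow, map_pow, algebraMap_int_eq, eq_intCast, eq_intCast, ← h,
      eq_intCast]
    ring

/-- **Rank over a multiquadratic field.** -/
theorem rank_mqG [DecidableEq Ω] (a2 a4 a6 : ℤ) : ∀ (n : ℕ) (C : Finset ℤ), C.card ≤ n →
    IsCoset C → Sqf C → HasRoots Ω C → ∀ d ∈ C,
    Module.rank ℤ (PointsOver (gcurve a2 a4 a6 d) (mqG Ω d C)) =
      ∑ e ∈ C, Module.rank ℤ (Points (gcurve a2 a4 a6 e)) := by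
  intro n
  induction n with
  | zero =>
    intro C hC hc _ _ d hd
    simp only [Nat.le_zero, Finset.card_eq_zero] at hC
    rw [hC] at hd
    simp at hd
  | succ n ih =>
    intro C hC hc hp hR d hd
    by_cases hsing : C = {d}
    · rw [hsing, Finset.sum_singleton]
      rw [rank_field_eqG _ (mqG_singleton (Ω := Ω) d)]
      exact rank_ringEquiv (gcurve a2 a4 a6 d) (IntermediateField.botEquiv ℚ Ω).toRingEquiv
    · obtain ⟨f, C₁, C₂, h⟩ := exists_split' hc hp hd hsing
      have hp1 : Sqf C₁ := fun x hx => hp x (h.sub1 hx)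
      have hp2 : Sqf C₂ := fun x hx => hp x (h.sub2 hx)
      have hR1 : HasRoots Ω C₁ := fun a ha b hb => hR a (h.sub1 ha) b (h.sub1 hb)
      have hR2 : HasRoots Ω C₂ := fun a ha b hb => hR a (h.sub2 ha) b (h.sub2 hb)
      have hd0 := (hp d (h.sub1 h.d1)).ne_zero
      have hf0 := (hp f (h.sub2 h.f2)).ne_zero
      have hdf := mul_ne_zero hd0 hf0
      have hcards : C.card = C₁.card + C₂.card := by
        rw [h.union, Finset.card_union_of_disjoint h.disj]
      have hcard1 : C₁.card ≤ n := by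
        have h2 : 0 < C₂.card := Finset.card_pos.mpr ⟨f, h.f2⟩
        omega
      have hcard2 : C₂.card ≤ n := by
        have h2 : 0 < C₁.card := Finset.card_pos.mpr ⟨d, h.d1⟩
        omega
      obtain ⟨s₀, hs₀⟩ := hR d (h.sub1 h.d1) f (h.sub2 h.f2)
      have hsF : s₀ ∉ mqG Ω d C₁ := by
        intro hs
        obtain ⟨e, he, hsq⟩ := kummerG _ C₁ le_rfl h.c1 hp1 hR1 d h.d1 (d * f) hdf _ hs hs₀
        have h1 : IsSquare (f * e) := isSquare_cancel (y := d) hd0 (sq_congr hsq (by ring))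
        have := eq_of_sq' hp (h.sub2 h.f2) (h.sub1 he) h1
        exact h.f1 (this ▸ he)
      have hle : mqG Ω d C₁ ≤ mqG Ω d C := mqG_mono h.sub1
      let : Algebra (mqG Ω d C₁) (mqG Ω d C) :=
        (IntermediateField.inclusion hle).toRingHom.toAlgebra
      have halg : ∀ y : mqG Ω d C₁, ((algebraMap (mqG Ω d C₁) (mqG Ω d C) y : mqG Ω d C) : Ω)
          = (y : Ω) := fun y => rfl
      let s : mqG Ω d C := ⟨s₀, root_mem (h.sub2 h.f2) hs₀⟩
      have hs2 : s ^ 2 = algebraMap (mqG Ω d C₁) (mqG Ω d C) ((d * f : ℤ) : mqG Ω d C₁) := by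
        apply Subtype.ext
        rw [halg]
        show s₀ ^ 2 = _
        rw [hs₀]
        simp
      have hs' : ∀ y : mqG Ω d C₁, algebraMap (mqG Ω d C₁) (mqG Ω d C) y ≠ s := by
        intro y hy
        apply hsF
        have := congrArg Subtype.val hy
        have h2 : (y : Ω) = s₀ := this
        rw [← h2]
        exact y.2
      have hall : ∀ z : mqG Ω d C, ∃ a b : mqG Ω d C₁, z =
          algebraMap (mqG Ω d C₁) (mqG Ω d C) a + algebraMap (mqG Ω d C₁) (mqG Ω d C) b * s := by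
        intro z
        obtain ⟨a, ha, b, hb, hab⟩ := h.memG_iff hp hR hs₀ hsF z.2
        exact ⟨⟨a, ha⟩, ⟨b, hb⟩, Subtype.ext hab⟩
      obtain ⟨σ, hσ, hfix, hσs⟩ := exists_conj s _ hs2 hs' hall
      have hs0 : s ≠ 0 := by
        intro hs
        have := congrArg Subtype.val hs
        exact root_ne hdf hs₀ this
      have hdK : ((d : ℤ) : mqG Ω d C) ≠ 0 := by exact_mod_cast hd0
      have hu : s / (d : mqG Ω d C) ≠ 0 := div_ne_zero hs0 hdK
      have hs3 : s ^ 2 = ((d * f : ℤ) : mqG Ω d C) := by rw [hs2, map_intCast]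
      have hsc := gcurve_scale (K := mqG Ω d C) (a2 := a2) (a4 := a4) (a6 := a6) (d := d)
        (f := f) hu (by
        rw [div_pow, hs3]
        push_cast
        field_simp)
      have hσu : σ (s / (d : mqG Ω d C)) = -(s / (d : mqG Ω d C)) := by
        rw [map_div₀, hσs, map_intCast, neg_div]
      have key := rank_quad (F := mqG Ω d C₁) (L := mqG Ω d C) (gcurve a2 a4 a6 d)
        (gcurve a2 a4 a6 f) rfl rfl rfl rfl σ hσ hfix _ hσu hsc
      have e1 : Module.rank ℤ (PointsOver (gcurve a2 a4 a6 d) (mqG Ω d C₁)) =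
          ∑ e ∈ C₁, Module.rank ℤ (Points (gcurve a2 a4 a6 e)) := ih C₁ hcard1 h.c1 hp1 hR1 d h.d1
      have e2 : Module.rank ℤ (PointsOver (gcurve a2 a4 a6 f) (mqG Ω d C₁)) =
          ∑ e ∈ C₂, Module.rank ℤ (Points (gcurve a2 a4 a6 e)) := by
        rw [← rank_field_eqG _ (h.fieldG_eq hp hR)]
        exact ih C₂ hcard2 h.c2 hp2 hR2 f h.f2
      have hsum : ∑ e ∈ C, Module.rank ℤ (Points (gcurve a2 a4 a6 e)) =
          ∑ e ∈ C₁, Module.rank ℤ (Points (gcurve a2 a4 a6 e)) +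
            ∑ e ∈ C₂, Module.rank ℤ (Points (gcurve a2 a4 a6 e)) := by
        rw [h.union]
        exact Finset.sum_union h.disj
      rw [hsum, ← e1, ← e2]
      exact key

theorem gcurve_eq_twistBy (a2 a4 a6 d : ℤ) : gcurve a2 a4 a6 d = twistBy ⟨0, a2, 0, a4, a6⟩ d := rfl

/-- Mordell's theorem for all twists, and a bound for the ranks. -/
theorem gcurve_fg_rank (a2 a4 a6 : ℤ) (hΔ : (gcurve a2 a4 a6 1).Δ ≠ 0) :
    ∃ a b : ℕ, ∀ d : ℤ, d ≠ 0 →
      Module.Finite ℤ (Points (gcurve a2 a4 a6 d)) ∧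
      Module.finrank ℤ (Points (gcurve a2 a4 a6 d)) ≤ a + b * d.natAbs.primeFactors.card := by
  have h0 : gcurve a2 a4 a6 1 = ⟨0, a2, 0, a4, a6⟩ := by
    simp [gcurve]
  rw [h0] at hΔ
  obtain ⟨a, b, h⟩ := twist_fg_rank ⟨0, a2, 0, a4, a6⟩ rfl rfl hΔ
  refine ⟨a, b, fun d hd => ?_⟩
  obtain ⟨h1, h2⟩ := h d hd
  exact ⟨Module.Finite.iff_addGroup_fg.mpr h1, h2⟩

/-- **Rank over a multiquadratic field**, as a natural number. -/
theorem finrank_mqG [DecidableEq Ω] (a2 a4 a6 : ℤ) (hΔ : (gcurve a2 a4 a6 1).Δ ≠ 0)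
    (C : Finset ℤ) (hc : IsCoset C) (hp : ∀ x ∈ C, Squarefree x) (hR : HasRoots Ω C) (d : ℤ)
    (hd : d ∈ C) :
    Module.finrank ℤ (PointsOver (gcurve a2 a4 a6 d) (mqG Ω d C)) =
      ∑ e ∈ C, Module.finrank ℤ (Points (gcurve a2 a4 a6 e)) := by
  obtain ⟨_, _, hfg⟩ := gcurve_fg_rank a2 a4 a6 hΔ
  have h := rank_mqG (Ω := Ω) a2 a4 a6 _ C le_rfl hc hp hR d hd
  have h2 : Module.rank ℤ (PointsOver (gcurve a2 a4 a6 d) (mqG Ω d C)) =
      ((∑ e ∈ C, Module.finrank ℤ (Points (gcurve a2 a4 a6 e)) : ℕ) : Cardinal) := by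
    rw [h]
    push_cast
    apply Finset.sum_congr rfl
    intro e he
    have := (hfg e (hp e he).ne_zero).1
    exact (Module.finrank_eq_rank ℤ (Points (gcurve a2 a4 a6 e))).symm
  rw [Module.finrank, h2, Cardinal.toNat_natCast]

/-- Rank over a real multiquadratic field. -/
theorem finrank_mqField' (a2 a4 a6 : ℤ) (hΔ : (gcurve a2 a4 a6 1).Δ ≠ 0)
    (C : Finset ℤ) (hc : IsCoset C) (hp : ∀ x ∈ C, x ∈ Twists true) (d : ℤ) (hd : d ∈ C) :
    Module.finrank ℤ (PointsOver (gcurve a2 a4 a6 d) (mqField d C)) =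
      ∑ e ∈ C, Module.finrank ℤ (Points (gcurve a2 a4 a6 e)) := by
  refine finrank_mqG (Ω := ℝ) a2 a4 a6 hΔ C hc (fun x hx => (hp x hx).1) ?_ d hd
  intro a ha b hb
  exact ⟨Real.sqrt ((a * b : ℤ) : ℝ), sqrt_sq_int (mul_pos ((hp a ha).2 rfl) ((hp b hb).2 rfl))⟩

/-- Rank over a multiquadratic field. -/
theorem finrank_mqFieldC (a2 a4 a6 : ℤ) (hΔ : (gcurve a2 a4 a6 1).Δ ≠ 0)
    (C : Finset ℤ) (hc : IsCoset C) (hp : ∀ x ∈ C, x ∈ Twists false) (d : ℤ) (hd : d ∈ C) :
    Module.finrank ℤ (PointsOver (gcurve a2 a4 a6 d) (mqFieldC d C)) =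
      ∑ e ∈ C, Module.finrank ℤ (Points (gcurve a2 a4 a6 e)) := by
  refine finrank_mqG (Ω := ℂ) a2 a4 a6 hΔ C hc (fun x hx => (hp x hx).1) ?_ d hd
  intro a _ b _
  obtain ⟨z, hz⟩ := IsAlgClosed.exists_pow_nat_eq ((a * b : ℤ) : ℂ) (n := 2) (by norm_num)
  exact ⟨z, hz⟩

end Pool.Agent.W92892cH77
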