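import Pool.Agent.W_92892c_h77.Sq

/-!
A coset with more than one element is the union of two smaller cosets.
-/

set_option autoImplicit false

namespace Pool.Agent.W92892cH77

open MQV

theorem sq_congr {a b : ℤ} (h : IsSquare a) (hab : a = b) : IsSquare b := hab ▸ h

/-- All elements are positive and squarefree. -/
def Pos (C : Finset ℤ) : Prop := ∀ x ∈ C, Squarefree x ∧ 0 < x

/-- The data of the splitting of a coset. -/
structure Split (d f : ℤ) (C C₁ C₂ : Finset ℤ) : Prop where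
  c1 : IsCoset C₁
  c2 : IsCoset C₂
  d1 : d ∈ C₁
  f2 : f ∈ C₂
  f1 : f ∉ C₁
  disj : Disjoint C₁ C₂
  union : C = C₁ ∪ C₂
  to1 : ∀ g ∈ C₂, ∃ e ∈ C₁, IsSquare (d * e * f * g)
  to2 : ∀ e ∈ C₁, ∃ g ∈ C₂, IsSquare (d * e * f * g)

theorem eq_of_sq {C : Finset ℤ} (hC : Pos C) {a b : ℤ} (ha : a ∈ C) (hb : b ∈ C)
    (h : IsSquare (a * b)) : a = b :=
  eq_of_isSquare_mul (hC a ha).1 (hC b hb).1 (hC a ha).2 (hC b hb).2 h

theorem exists_split {C : Finset ℤ} (hC : IsCoset C) (hp : Pos C) {d : ℤ} (hd : d ∈ C)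
    (hne : C ≠ {d}) : ∃ f C₁ C₂, Split d f C C₁ C₂ := by
  classical
  have hz : ∀ x ∈ C, x ≠ 0 := fun x hx => (hp x hx).2.ne'
  -- a maximal proper subcoset containing `d`
  let S : Finset (Finset ℤ) := C.powerset.filter (fun D => IsCoset D ∧ d ∈ D ∧ D ≠ C)
  have hS : S.Nonempty := by
    refine ⟨{d}, ?_⟩
    simp only [S, Finset.mem_filter, Finset.mem_powerset, Finset.singleton_subset_iff]
    refine ⟨hd, ⟨⟨d, by simp⟩, ?_⟩, by simp, fun h => hne h.symm⟩
    intro x hx y hy z hz'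
    rw [Finset.mem_singleton] at hx hy hz'
    rw [hx, hy, hz']
    exact ⟨d, by simp, ⟨d * d, by ring⟩⟩
  obtain ⟨C₁, hC₁, hmax⟩ := S.exists_max_image Finset.card hS
  simp only [S, Finset.mem_filter, Finset.mem_powerset] at hC₁ hmax
  obtain ⟨hsub, hc1, hd1, hne1⟩ := hC₁
  obtain ⟨f, hf, hf1⟩ := Finset.exists_of_ssubset (Finset.ssubset_iff_subset_ne.mpr ⟨hsub, hne1⟩)
  let C₂ : Finset ℤ := C.filter (fun g => ∃ e ∈ C₁, IsSquare (d * e * f * g))
  have hmem2 : ∀ g, g ∈ C₂ ↔ g ∈ C ∧ ∃ e ∈ C₁, IsSquare (d * e * f * g) := by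
    intro g
    simp only [C₂, Finset.mem_filter]
  have hf2 : f ∈ C₂ := by
    rw [hmem2]
    exact ⟨hf, d, hd1, ⟨d * f, by ring⟩⟩
  have hto2 : ∀ e ∈ C₁, ∃ g ∈ C₂, IsSquare (d * e * f * g) := by
    intro e he
    obtain ⟨g, hg, hs⟩ := hC.closed d hd e (hsub he) f hf
    exact ⟨g, (hmem2 g).mpr ⟨hg, e, he, hs⟩, hs⟩
  have hdis : Disjoint C₁ C₂ := by
    rw [Finset.disjoint_left]
    intro g hg1 hg2
    obtain ⟨hg, e, he, hs⟩ := (hmem2 g).mp hg2
    obtain ⟨h, hh, hs'⟩ := hc1.closed d hd1 e he g hg1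
    have hsq : IsSquare (f * h) := by
      apply isSquare_cancel (y := d * e * g)
      · exact mul_ne_zero (mul_ne_zero (hz d hd) (hz e (hsub he))) (hz g hg)
      · exact sq_congr (hs.mul hs') (by ring)
    have := eq_of_sq hp hf (hsub hh) hsq
    exact hf1 (this ▸ hh)
  have hc2 : IsCoset C₂ := by
    refine ⟨⟨f, hf2⟩, ?_⟩
    intro x hx y hy z hz'
    obtain ⟨hx, ex, hex, hsx⟩ := (hmem2 x).mp hx
    obtain ⟨hy, ey, hey, hsy⟩ := (hmem2 y).mp hy
    obtain ⟨hzc, ez, hez, hsz⟩ := (hmem2 z).mp hz'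
    obtain ⟨w, hw, hsw⟩ := hC.closed x hx y hy z hzc
    obtain ⟨e, he, hse⟩ := hc1.closed ex hex ey hey ez hez
    refine ⟨w, (hmem2 w).mpr ⟨hw, e, he, ?_⟩, hsw⟩
    apply isSquare_cancel (y := d * f * ex * ey * ez * x * y * z)
    · have h1 := hz d hd
      have h2 := hz f hf
      have h3 := hz ex (hsub hex)
      have h4 := hz ey (hsub hey)
      have h5 := hz ez (hsub hez)
      have h6 := hz x hx
      have h7 := hz y hy
      have h8 := hz z hzc
      positivity
    · exact sq_congr ((((hsx.mul hsy).mul hsz).mul hsw).mul hse) (by ring)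
  have hU : IsCoset (C₁ ∪ C₂) := by
    refine ⟨⟨d, by simp [hd1]⟩, ?_⟩
    -- every element `x` of the union has `e ∈ C₁` and `i` with `(d f)^i e x` a square
    have hrep : ∀ x ∈ C₁ ∪ C₂, ∃ e ∈ C₁, ∃ i : Bool, IsSquare ((if i then d * f else 1) * e * x) := by
      intro x hx
      rcases Finset.mem_union.mp hx with h | h
      · exact ⟨x, h, false, ⟨x, by simp⟩⟩
      · obtain ⟨_, e, he, hs⟩ := (hmem2 x).mp h
        exact ⟨e, he, true, sq_congr hs (by simp only [if_true]; ring)⟩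
    have hrep' : ∀ x ∈ C, (∃ e ∈ C₁, ∃ i : Bool, IsSquare ((if i then d * f else 1) * e * x)) →
        x ∈ C₁ ∪ C₂ := by
      rintro x hx ⟨e, he, i, hs⟩
      cases i
      · have : e = x := eq_of_sq hp (hsub he) hx (by simpa using hs)
        exact Finset.mem_union_left _ (this ▸ he)
      · apply Finset.mem_union_right
        rw [hmem2]
        exact ⟨hx, e, he, sq_congr hs (by simp only [if_true]; ring)⟩
    have hUC : ∀ x ∈ C₁ ∪ C₂, x ∈ C := by
      intro x hx
      rcases Finset.mem_union.mp hx with h | h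
      · exact hsub h
      · exact ((hmem2 x).mp h).1
    intro x hx y hy z hz'
    have hxC := hUC x hx
    have hyC := hUC y hy
    have hzC := hUC z hz'
    obtain ⟨ex, hex, i, hsx⟩ := hrep x hx
    obtain ⟨ey, hey, j, hsy⟩ := hrep y hy
    obtain ⟨ez, hez, k, hsz⟩ := hrep z hz'
    obtain ⟨w, hw, hsw⟩ := hC.closed x hxC y hyC z hzC
    obtain ⟨e, he, hse⟩ := hc1.closed ex hex ey hey ez hez
    refine ⟨w, hrep' w hw ⟨e, he, xor (xor i j) k, ?_⟩, hsw⟩
    have h1 := hz d hd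
    have h2 := hz f hf
    have h3 := hz ex (hsub hex)
    have h4 := hz ey (hsub hey)
    have h5 := hz ez (hsub hez)
    have h6 := hz x hxC
    have h7 := hz y hyC
    have h8 := hz z hzC
    have hall := (((hsx.mul hsy).mul hsz).mul hsw).mul hse
    have hdf0 : d * f ≠ 0 := mul_ne_zero h1 h2
    have hX : ex * ey * ez * x * y * z ≠ 0 := by positivity
    rcases i with _ | _ <;> rcases j with _ | _ <;> rcases k with _ | _
    all_goals
      simp only [if_true, Bool.false_eq_true, if_false, Bool.xor_false, Bool.xor_true,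
        Bool.not_false, Bool.not_true] at hall ⊢
      first
      | (refine isSquare_cancel (y := ex * ey * ez * x * y * z) hX (sq_congr hall ?_)
         ring1)
      | (refine isSquare_cancel (y := ex * ey * ez * x * y * z * (d * f)) (mul_ne_zero hX hdf0)
          (sq_congr hall ?_)
         ring1)
  have hUsub : C₁ ∪ C₂ ⊆ C := by
    apply Finset.union_subset hsub
    intro g hg
    exact ((hmem2 g).mp hg).1
  have hunion : C = C₁ ∪ C₂ := by
    by_contra hcon
    have h1 := hmax (C₁ ∪ C₂) ⟨hUsub, hU, by simp [hd1], fun h => hcon h.symm⟩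
    have h2 : C₁ ⊂ C₁ ∪ C₂ := by
      rw [Finset.ssubset_iff_subset_ne]
      refine ⟨Finset.subset_union_left, fun h => hf1 ?_⟩
      rw [h]
      exact Finset.mem_union_right _ hf2
    exact absurd (Finset.card_lt_card h2) (not_lt.mpr h1)
  exact ⟨f, C₁, C₂, hc1, hc2, hd1, hf2, hf1, hdis, hunion,
    fun g hg => ((hmem2 g).mp hg).2, hto2⟩

end Pool.Agent.W92892cH77
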