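import Pool.Agent.W_92892c_h77.Ord

/-!
Square classes with even order outside a finite set of primes: a finite classification.
-/

set_option autoImplicit false
set_option linter.unusedSectionVars false

namespace Pool.Agent.W92892cH77

open IsDedekindDomain FractionalIdeal nonZeroDivisors

variable {R K : Type*} [CommRing R] [IsDedekindDomain R] [Field K] [Algebra R K] [IsFractionRing R K]

/-- If all orders of `y` are even, the principal ideal of `y` is a square. -/
theorem exists_sqrt_ideal (y : Kˣ) (h : ∀ v : HeightOneSpectrum R, Even (ord v (y : K))) :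
    ∃ J : (FractionalIdeal R⁰ K)ˣ, J ^ 2 = toPrincipalIdeal R K y := by
  have hy : spanSingleton R⁰ (y : K) ≠ 0 := span_ne y.ne_zero
  choose f hf using h
  have hfac := finprod_heightOneSpectrum_factorization' K hy
  have hfin : (Function.mulSupport fun v : HeightOneSpectrum R =>
      (v.asIdeal : FractionalIdeal R⁰ K) ^ f v).Finite := by
    have h1 := finite_factors (K := K) (spanSingleton R⁰ (y : K))
    rw [Filter.eventually_cofinite] at h1
    refine h1.subset ?_
    intro v hv h2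
    apply hv
    have h3 : f v + f v = 0 := by rw [← hf v]; exact h2
    have h4 : f v = 0 := by linarith
    show (v.asIdeal : FractionalIdeal R⁰ K) ^ f v = 1
    rw [h4, zpow_zero]
  let I : FractionalIdeal R⁰ K := ∏ᶠ v : HeightOneSpectrum R,
    (v.asIdeal : FractionalIdeal R⁰ K) ^ f v
  have hI : I ^ 2 = spanSingleton R⁰ (y : K) := by
    rw [← hfac]
    show (∏ᶠ v : HeightOneSpectrum R, (v.asIdeal : FractionalIdeal R⁰ K) ^ f v) ^ 2 = _
    rw [finprod_pow hfin]
    apply finprod_congr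
    intro v
    have h0 : (v.asIdeal : FractionalIdeal R⁰ K) ≠ 0 := coeIdeal_ne_zero.mpr v.ne_bot
    have h5 : count K v (spanSingleton R⁰ (y : K)) = f v + f v := hf v
    rw [h5, ← zpow_natCast, ← zpow_mul]
    congr 1
    push_cast
    ring
  have hI0 : I ≠ 0 := by
    intro h0
    rw [h0] at hI
    apply hy
    rw [← hI]
    simp
  refine ⟨Units.mk0 I hI0, ?_⟩
  apply Units.ext
  rw [Units.val_pow_eq_pow_val, Units.val_mk0, hI, coe_toPrincipalIdeal]

/-- An element generating the unit ideal is a unit of `R`. -/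
theorem unit_of_toPrincipalIdeal (x : Kˣ) (h : toPrincipalIdeal R K x = 1) :
    ∃ u : Rˣ, algebraMap R K u = (x : K) := by
  have hx : spanSingleton R⁰ (x : K) = 1 := by
    have := congrArg Units.val h
    rwa [coe_toPrincipalIdeal] at this
  have hx' : spanSingleton R⁰ ((x⁻¹ : Kˣ) : K) = 1 := by
    have := congrArg Units.val (show toPrincipalIdeal R K x⁻¹ = 1 by rw [map_inv, h, inv_one])
    rwa [coe_toPrincipalIdeal] at this
  have h1 : ((x : K)) ∈ (1 : FractionalIdeal R⁰ K) := by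
    rw [← hx]
    exact mem_spanSingleton_self _ _
  have h2 : (((x⁻¹ : Kˣ) : K)) ∈ (1 : FractionalIdeal R⁰ K) := by
    rw [← hx']
    exact mem_spanSingleton_self _ _
  rw [mem_one_iff] at h1 h2
  obtain ⟨a, ha⟩ := h1
  obtain ⟨b, hb⟩ := h2
  have hab : a * b = 1 := by
    apply IsFractionRing.injective R K
    rw [map_mul, ha, hb, map_one]
    exact x.mul_inv
  exact ⟨⟨a, b, hab, by rw [mul_comm]; exact hab⟩, ha⟩

/-- The type of classes. -/
abbrev ClsT (R K : Type*) [CommRing R] [IsDedekindDomain R] [Field K] [Algebra R K]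
    [IsFractionRing R K] (S : Finset (HeightOneSpectrum R)) : Type _ :=
  (S → Bool) × ((FractionalIdeal R⁰ K)ˣ ⧸ (toPrincipalIdeal R K).range) ×
    (Rˣ ⧸ (powMonoidHom 2 : Rˣ →* Rˣ).range)

theorem isSquare_of_mul_sq {x z : K} (hz : z ≠ 0) (h : IsSquare (x * (z * z))) : IsSquare x := by
  obtain ⟨t, ht⟩ := h
  refine ⟨t / z, ?_⟩
  field_simp
  linear_combination ht

/-- The classification. -/
theorem exists_cl (S : Finset (HeightOneSpectrum R)) : ∃ cl : K → ClsT R K S,
    ∀ x x' : K, x ≠ 0 → x' ≠ 0 → (∀ v, v ∉ S → Even (ord v x)) → (∀ v, v ∉ S → Even (ord v x')) →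
      cl x = cl x' → IsSquare (x * x') := by
  classical
  -- parities at `S`
  let par : Kˣ → (S → Bool) := fun x v => decide (Even (ord (v : HeightOneSpectrum R) (x : K)))
  let X : Set Kˣ := {x | ∀ v, v ∉ S → Even (ord v (x : K))}
  have hrep1 : ∀ e : S → Bool, ∃ x₀ : Kˣ, (∃ x ∈ X, par x = e) → x₀ ∈ X ∧ par x₀ = e := by
    intro e
    by_cases h : ∃ x ∈ X, par x = e
    · obtain ⟨x, hx⟩ := h
      exact ⟨x, fun _ => hx⟩
    · exact ⟨1, fun h' => absurd h' h⟩
  choose rep1 hrep1 using hrep1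
  let yy : Kˣ → Kˣ := fun x => x * rep1 (par x)
  have hyy : ∀ x ∈ X, ∀ v : HeightOneSpectrum R, Even (ord v (yy x : K)) := by
    intro x hx v
    obtain ⟨h1, h2⟩ := hrep1 (par x) ⟨x, hx, rfl⟩
    show Even (ord v (((x * rep1 (par x) : Kˣ)) : K))
    rw [Units.val_mul, ord_mul v x.ne_zero (rep1 (par x)).ne_zero]
    by_cases hv : v ∈ S
    · have h3 := congrFun h2 ⟨v, hv⟩
      have h4 : (Even (ord v ((rep1 (par x) : Kˣ) : K))) ↔ Even (ord v (x : K)) :=
        decide_eq_decide.mp h3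
      rw [Int.even_add]
      exact h4.symm
    · exact (hx v hv).add (h1 v hv)
  let Y : Set Kˣ := {y | ∀ v : HeightOneSpectrum R, Even (ord v (y : K))}
  have hJ : ∀ y : Kˣ, ∃ J : (FractionalIdeal R⁰ K)ˣ, y ∈ Y → J ^ 2 = toPrincipalIdeal R K y := by
    intro y
    by_cases hy : y ∈ Y
    · obtain ⟨J, hJ⟩ := exists_sqrt_ideal y hy
      exact ⟨J, fun _ => hJ⟩
    · exact ⟨1, fun h => absurd h hy⟩
  choose J hJ using hJ
  let cc : Kˣ → (FractionalIdeal R⁰ K)ˣ ⧸ (toPrincipalIdeal R K).range := fun y => (J y : _)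
  have hrep2 : ∀ q : (FractionalIdeal R⁰ K)ˣ ⧸ (toPrincipalIdeal R K).range, ∃ y₀ : Kˣ,
      (∃ y ∈ Y, cc y = q) → y₀ ∈ Y ∧ cc y₀ = q := by
    intro q
    by_cases h : ∃ y ∈ Y, cc y = q
    · obtain ⟨y, hy⟩ := h
      exact ⟨y, fun _ => hy⟩
    · exact ⟨1, fun h' => absurd h' h⟩
  choose rep2 hrep2 using hrep2
  have hun : ∀ y : Kˣ, ∃ u : Rˣ, y ∈ Y → ∃ g : Kˣ,
      (y : K) * (g * g) = algebraMap R K u * (rep2 (cc y) : K) := by
    intro y
    by_cases hy : y ∈ Y
    · obtain ⟨h1, h2⟩ := hrep2 (cc y) ⟨y, hy, rfl⟩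
      have h3 : (J y)⁻¹ * J (rep2 (cc y)) ∈ (toPrincipalIdeal R K).range :=
        QuotientGroup.eq.mp h2.symm
      obtain ⟨g, hg⟩ := h3
      have h4 : toPrincipalIdeal R K (y * (g * g) * (rep2 (cc y))⁻¹) = 1 := by
        rw [map_mul, map_mul, map_mul, map_inv, ← hJ y hy, ← hJ _ h1, hg]
        generalize J (rep2 (cc y)) = b
        generalize J y = a
        have h5 : a ^ 2 * (a⁻¹ * b * (a⁻¹ * b)) = b ^ 2 := by
          rw [← sq, mul_pow, inv_pow, mul_inv_cancel_left]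
        rw [h5, mul_inv_cancel]
      obtain ⟨u, hu⟩ := unit_of_toPrincipalIdeal _ h4
      refine ⟨u, fun _ => ⟨g, ?_⟩⟩
      rw [hu]
      push_cast
      field_simp
    · exact ⟨1, fun h => absurd h hy⟩
  choose uu huu using hun
  let cl : K → ClsT R K S := fun x =>
    if hx : x = 0 then (fun _ => false, 1, 1)
    else (par (Units.mk0 x hx), cc (yy (Units.mk0 x hx)), (uu (yy (Units.mk0 x hx)) : _))
  refine ⟨cl, ?_⟩
  intro x x' hx hx' hX hX' hc
  have hcx : cl x = (par (Units.mk0 x hx), cc (yy (Units.mk0 x hx)),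
      (uu (yy (Units.mk0 x hx)) : Rˣ ⧸ (powMonoidHom 2 : Rˣ →* Rˣ).range)) := dif_neg hx
  have hcx' : cl x' = (par (Units.mk0 x' hx'), cc (yy (Units.mk0 x' hx')),
      (uu (yy (Units.mk0 x' hx')) : Rˣ ⧸ (powMonoidHom 2 : Rˣ →* Rˣ).range)) := dif_neg hx'
  rw [hcx, hcx', Prod.mk.injEq, Prod.mk.injEq] at hc
  set a := Units.mk0 x hx with ha
  set b := Units.mk0 x' hx' with hb
  obtain ⟨hc1, hc2, hc3⟩ := hc
  have haX : a ∈ X := hX
  have hbX : b ∈ X := hX'
  have hya : yy a ∈ Y := hyy a haX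
  have hyb : yy b ∈ Y := hyy b hbX
  obtain ⟨g, hg⟩ := huu (yy a) hya
  obtain ⟨g', hg'⟩ := huu (yy b) hyb
  obtain ⟨w, hw⟩ := QuotientGroup.eq.mp hc3
  have hw' : uu (yy b) = uu (yy a) * (w * w) := by
    have h1 : w ^ 2 = (uu (yy a))⁻¹ * uu (yy b) := hw
    rw [← sq, h1, mul_inv_cancel_left]
  -- `yy a * yy b` is a square
  have hyab : IsSquare (((yy a : Kˣ) : K) * ((yy b : Kˣ) : K)) := by
    apply isSquare_of_mul_sq (z := (g : K) * g') (mul_ne_zero g.ne_zero g'.ne_zero)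
    have h1 : ((yy a : Kˣ) : K) * ((yy b : Kˣ) : K) * ((g : K) * g' * ((g : K) * g')) =
        (((yy a : Kˣ) : K) * ((g : K) * g)) * (((yy b : Kˣ) : K) * ((g' : K) * g')) := by ring
    rw [h1, hg, hg', ← hc2, hw', Units.val_mul, Units.val_mul, map_mul, map_mul]
    exact ⟨algebraMap R K (uu (yy a)) * algebraMap R K w * (rep2 (cc (yy a)) : K), by ring⟩
  apply isSquare_of_mul_sq (z := ((rep1 (par a) : Kˣ) : K)) (rep1 (par a)).ne_zero
  have h1 : ((yy a : Kˣ) : K) = x * ((rep1 (par a) : Kˣ) : K) := rfl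
  have h2 : ((yy b : Kˣ) : K) = x' * ((rep1 (par a) : Kˣ) : K) := by
    rw [hc1]
    rfl
  rw [h1, h2] at hyab
  have h3 : x * x' * (((rep1 (par a) : Kˣ) : K) * ((rep1 (par a) : Kˣ) : K)) =
      x * ((rep1 (par a) : Kˣ) : K) * (x' * ((rep1 (par a) : Kˣ) : K)) := by ring
  rw [h3]
  exact hyab

end Pool.Agent.W92892cH77
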