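import Mathlib

/-!
Full 2-descent for `y² = (x - e₁) (x - e₂) (x - e₃)` over any field: the collinearity identity and
the halving of points.
-/

set_option autoImplicit false

namespace Pool.Agent.W92892cH77

open WeierstrassCurve WeierstrassCurve.Affine Polynomial

variable {F : Type*} [Field F]

/-- The curve `y² = (x - e₁) (x - e₂) (x - e₃)`. -/
def Cg (e₁ e₂ e₃ : F) : WeierstrassCurve F :=
  ⟨0, -(e₁ + e₂ + e₃), 0, e₁ * e₂ + e₁ * e₃ + e₂ * e₃, -(e₁ * e₂ * e₃)⟩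

variable {e₁ e₂ e₃ : F}

lemma cg_eqn (x y : F) : (Cg e₁ e₂ e₃).toAffine.Equation x y ↔
    y ^ 2 = (x - e₁) * (x - e₂) * (x - e₃) := by
  rw [WeierstrassCurve.Affine.equation_iff]
  simp only [Cg]
  constructor
  · intro h; linear_combination h
  · intro h; linear_combination h

lemma cg_negY (x y : F) : (Cg e₁ e₂ e₃).toAffine.negY x y = -y := by
  simp [WeierstrassCurve.Affine.negY, Cg]

variable [DecidableEq F]

/-- The line through two points evaluated at a root of the cubic. -/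
lemma cg_collinear {e x₁ y₁ x₂ y₂ : F} (he : (e - e₁) * (e - e₂) * (e - e₃) = 0)
    (h₁ : (Cg e₁ e₂ e₃).toAffine.Equation x₁ y₁) (h₂ : (Cg e₁ e₂ e₃).toAffine.Equation x₂ y₂)
    (hxy : ¬(x₁ = x₂ ∧ y₁ = (Cg e₁ e₂ e₃).toAffine.negY x₂ y₂)) :
    (x₁ - e) * (x₂ - e) *
      ((Cg e₁ e₂ e₃).toAffine.addX x₁ x₂ ((Cg e₁ e₂ e₃).toAffine.slope x₁ x₂ y₁ y₂) - e) =
      ((Cg e₁ e₂ e₃).toAffine.slope x₁ x₂ y₁ y₂ * (e - x₁) + y₁) ^ 2 := by
  have h := congrArg (Polynomial.eval e) (addPolynomial_slope h₁ h₂ hxy)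
  rw [WeierstrassCurve.Affine.addPolynomial_eq] at h
  simp only [Cubic.toPoly, eval_neg, eval_mul, eval_sub, eval_add, eval_pow, eval_X, eval_C] at h
  simp only [Cg] at h ⊢
  linear_combination -h - he

omit [DecidableEq F] in
lemma cg_nonsing_of_ne {x y : F} (h2 : (2 : F) ≠ 0)
    (h : y ^ 2 = (x - e₁) * (x - e₂) * (x - e₃)) (hy : y ≠ 0) :
    (Cg e₁ e₂ e₃).toAffine.Nonsingular x y := by
  rw [WeierstrassCurve.Affine.nonsingular_iff]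
  refine ⟨(cg_eqn x y).mpr h, Or.inr ?_⟩
  rw [show (-y - (Cg e₁ e₂ e₃).toAffine.a₁ * x - (Cg e₁ e₂ e₃).toAffine.a₃) = -y by simp [Cg]]
  intro h'
  have : (2 : F) * y = 0 := by linear_combination h'
  rcases mul_eq_zero.mp this with h | h
  · exact h2 h
  · exact hy h

/-- If the `x - e_i` are squares, the point `(x, y)` is divisible by `2`. -/
lemma cg_halve {x y t₁ t₂ t₃ : F} (h2 : (2 : F) ≠ 0) (h12 : e₁ ≠ e₂) (h13 : e₁ ≠ e₃)
    (h23 : e₂ ≠ e₃)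
    (h : (Cg e₁ e₂ e₃).toAffine.Nonsingular x y) (h₁ : x - e₁ = t₁ ^ 2) (h₂ : x - e₂ = t₂ ^ 2)
    (h₃ : x - e₃ = t₃ ^ 2) (hy : y = t₁ * t₂ * t₃) :
    ∃ Q : (Cg e₁ e₂ e₃).toAffine.Point, Q + Q = Point.some x y h := by
  have n12 : t₁ + t₂ ≠ 0 := by
    intro h0
    apply h12
    have : (t₁ + t₂) * (t₁ - t₂) = e₂ - e₁ := by linear_combination h₂ - h₁
    rw [h0, zero_mul] at this
    linear_combination this
  have n13 : t₁ + t₃ ≠ 0 := by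
    intro h0
    apply h13
    have : (t₁ + t₃) * (t₁ - t₃) = e₃ - e₁ := by linear_combination h₃ - h₁
    rw [h0, zero_mul] at this
    linear_combination this
  have n23 : t₂ + t₃ ≠ 0 := by
    intro h0
    apply h23
    have : (t₂ + t₃) * (t₂ - t₃) = e₃ - e₂ := by linear_combination h₃ - h₂
    rw [h0, zero_mul] at this
    linear_combination this
  set X : F := x + t₁ * t₂ + t₁ * t₃ + t₂ * t₃ with hX
  set Y : F := (t₁ + t₂) * (t₁ + t₃) * (t₂ + t₃) with hY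
  have hY0 : Y ≠ 0 := mul_ne_zero (mul_ne_zero n12 n13) n23
  have k1 : X - e₁ = (t₁ + t₂) * (t₁ + t₃) := by rw [hX]; linear_combination h₁
  have k2 : X - e₂ = (t₁ + t₂) * (t₂ + t₃) := by
    rw [hX]; linear_combination h₂
  have k3 : X - e₃ = (t₁ + t₃) * (t₂ + t₃) := by
    rw [hX]; linear_combination h₃
  have hE : Y ^ 2 = (X - e₁) * (X - e₂) * (X - e₃) := by
    rw [k1, k2, k3, hY]; ring
  have hN := cg_nonsing_of_ne h2 hE hY0
  have hne : Y ≠ (Cg e₁ e₂ e₃).toAffine.negY X Y := by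
    rw [cg_negY]
    intro h'
    have : (2 : F) * Y = 0 := by linear_combination h'
    rcases mul_eq_zero.mp this with h | h
    · exact h2 h
    · exact hY0 h
  have hs : (Cg e₁ e₂ e₃).toAffine.slope X X Y Y = t₁ + t₂ + t₃ := by
    rw [slope_of_Y_ne rfl hne, cg_negY]
    have h2Y : Y - -Y ≠ 0 := by
      intro h'
      have : (2 : F) * Y = 0 := by linear_combination h'
      rcases mul_eq_zero.mp this with h | h
      · exact h2 h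
      · exact hY0 h
    rw [div_eq_iff h2Y]
    simp only [Cg]
    have : 3 * X ^ 2 + 2 * -(e₁ + e₂ + e₃) * X + (e₁ * e₂ + e₁ * e₃ + e₂ * e₃) - 0 * Y =
      (X - e₁) * (X - e₂) + (X - e₁) * (X - e₃) + (X - e₂) * (X - e₃) := by ring
    rw [this, k1, k2, k3, hY]
    ring
  refine ⟨Point.some X Y hN, ?_⟩
  rw [Point.add_self_of_Y_ne hne]
  have hx : (Cg e₁ e₂ e₃).toAffine.addX X X ((Cg e₁ e₂ e₃).toAffine.slope X X Y Y) = x := by
    rw [hs]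
    simp only [WeierstrassCurve.Affine.addX, Cg]
    rw [hX]
    linear_combination -h₁ - h₂ - h₃
  have hy' : (Cg e₁ e₂ e₃).toAffine.addY X X Y ((Cg e₁ e₂ e₃).toAffine.slope X X Y Y) = y := by
    rw [WeierstrassCurve.Affine.addY, cg_negY, WeierstrassCurve.Affine.negAddY, hx, hs, hy, hX, hY]
    ring
  simp only [Point.some.injEq]
  exact ⟨hx, hy'⟩

lemma cg_halve' {x y : F} (h2 : (2 : F) ≠ 0) (h12 : e₁ ≠ e₂) (h13 : e₁ ≠ e₃)
    (h23 : e₂ ≠ e₃)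
    (h : (Cg e₁ e₂ e₃).toAffine.Nonsingular x y) (h₁ : IsSquare (x - e₁)) (h₂ : IsSquare (x - e₂))
    (h₃ : IsSquare (x - e₃)) :
    ∃ Q : (Cg e₁ e₂ e₃).toAffine.Point, Q + Q = Point.some x y h := by
  obtain ⟨t₁, h₁⟩ := h₁
  obtain ⟨t₂, h₂⟩ := h₂
  obtain ⟨t₃, h₃⟩ := h₃
  have hE := (cg_eqn x y).mp h.1
  have : (y - t₁ * t₂ * t₃) * (y + t₁ * t₂ * t₃) = 0 := by
    have : y ^ 2 = (t₁ * t₁) * (t₂ * t₂) * (t₃ * t₃) := by rw [← h₁, ← h₂, ← h₃, hE]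
    linear_combination this
  rcases mul_eq_zero.mp this with hy | hy
  · exact cg_halve h2 h12 h13 h23 h (t₁ := t₁) (t₂ := t₂) (t₃ := t₃) (by rw [h₁]; ring)
      (by rw [h₂]; ring) (by rw [h₃]; ring) (by linear_combination hy)
  · exact cg_halve h2 h12 h13 h23 h (t₁ := -t₁) (t₂ := t₂) (t₃ := t₃) (by rw [h₁]; ring)
      (by rw [h₂]; ring) (by rw [h₃]; ring) (by linear_combination hy)

omit [DecidableEq F] in
lemma sq_of_mul' {u v s : F} (hu : IsSquare u) (hu0 : u ≠ 0) (h : u * v = s ^ 2) :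
    IsSquare v := by
  obtain ⟨t, ht⟩ := hu
  have t0 : t ≠ 0 := by rintro rfl; exact hu0 (by rw [ht]; ring)
  refine ⟨s / t, ?_⟩
  field_simp
  rw [← h, ht]; ring

/-- Two points with the same class modulo squares have a sum in `2 E`. -/
lemma cg_same_class {x₁ y₁ x₂ y₂ : F} (h2 : (2 : F) ≠ 0) (h12 : e₁ ≠ e₂) (h13 : e₁ ≠ e₃)
    (h23 : e₂ ≠ e₃)
    (h₁ : (Cg e₁ e₂ e₃).toAffine.Nonsingular x₁ y₁) (h₂ : (Cg e₁ e₂ e₃).toAffine.Nonsingular x₂ y₂)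
    (n₁ : y₁ ≠ 0) (n₂ : y₂ ≠ 0) (c₁ : IsSquare ((x₁ - e₁) * (x₂ - e₁)))
    (c₂ : IsSquare ((x₁ - e₂) * (x₂ - e₂))) :
    ∃ Q : (Cg e₁ e₂ e₃).toAffine.Point, Q + Q = Point.some x₁ y₁ h₁ + Point.some x₂ y₂ h₂ := by
  have E₁ := (cg_eqn x₁ y₁).mp h₁.1
  have E₂ := (cg_eqn x₂ y₂).mp h₂.1
  have z₁ : (x₁ - e₁) * (x₁ - e₂) * (x₁ - e₃) ≠ 0 := by rw [← E₁]; exact pow_ne_zero 2 n₁
  have z₂ : (x₂ - e₁) * (x₂ - e₂) * (x₂ - e₃) ≠ 0 := by rw [← E₂]; exact pow_ne_zero 2 n₂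
  have a₁ := (mul_ne_zero_iff.mp z₁).2
  have a₁' := (mul_ne_zero_iff.mp (mul_ne_zero_iff.mp z₁).1).2
  have a₁'' := (mul_ne_zero_iff.mp (mul_ne_zero_iff.mp z₁).1).1
  have a₂ := (mul_ne_zero_iff.mp z₂).2
  have a₂' := (mul_ne_zero_iff.mp (mul_ne_zero_iff.mp z₂).1).2
  have a₂'' := (mul_ne_zero_iff.mp (mul_ne_zero_iff.mp z₂).1).1
  have c₃ : IsSquare ((x₁ - e₃) * (x₂ - e₃)) := by
    refine sq_of_mul' (u := ((x₁ - e₁) * (x₂ - e₁)) * ((x₁ - e₂) * (x₂ - e₂))) (s := y₁ * y₂)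
      (c₁.mul c₂) (mul_ne_zero (mul_ne_zero a₁'' a₂'') (mul_ne_zero a₁' a₂')) ?_
    rw [mul_pow, E₁, E₂]; ring
  by_cases hxy : x₁ = x₂ ∧ y₁ = (Cg e₁ e₂ e₃).toAffine.negY x₂ y₂
  · exact ⟨0, by rw [Point.add_of_Y_eq hxy.1 hxy.2, add_zero]⟩
  rw [Point.add_some hxy]
  have k₁ := cg_collinear (e := e₁) (by ring) h₁.1 h₂.1 hxy
  have k₂ := cg_collinear (e := e₂) (by ring) h₁.1 h₂.1 hxy
  have k₃ := cg_collinear (e := e₃) (by ring) h₁.1 h₂.1 hxy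
  refine cg_halve' h2 h12 h13 h23 _ ?_ ?_ ?_
  · exact sq_of_mul' c₁ (mul_ne_zero a₁'' a₂'') k₁
  · exact sq_of_mul' c₂ (mul_ne_zero a₁' a₂') k₂
  · exact sq_of_mul' c₃ (mul_ne_zero a₁ a₂) k₃

end Pool.Agent.W92892cH77
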