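import Pool.Agent.W_92892c_h77.SplitG
import Pool.Agent.W_92892c_h77.Fields

/-!
The field generated by a coset, and its splitting, inside any field `Ω` of characteristic zero.
-/

set_option autoImplicit false
set_option linter.unusedSectionVars false

namespace Pool.Agent.W92892cH77

open MQV

variable {Ω : Type} [Field Ω] [CharZero Ω]

/-- The multiquadratic field generated by the `x ∈ Ω` with `x² = d e`, `e ∈ C`. -/
noncomputable def mqG (Ω : Type) [Field Ω] [CharZero Ω] (d : ℤ) (C : Finset ℤ) :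
    IntermediateField ℚ Ω :=
  IntermediateField.adjoin ℚ {x : Ω | ∃ e ∈ C, x ^ 2 = (d * e : ℤ)}

/-- The square roots exist. -/
def HasRoots (Ω : Type) [Field Ω] (C : Finset ℤ) : Prop :=
  ∀ a ∈ C, ∀ b ∈ C, ∃ x : Ω, x ^ 2 = ((a * b : ℤ) : Ω)

theorem int_mem (K : IntermediateField ℚ Ω) (n : ℤ) : (n : Ω) ∈ K := by
  simp

theorem mem_of_sq' {K : IntermediateField ℚ Ω} {x y : Ω} (hy : y ∈ K) (hy0 : y ≠ 0) {m : ℤ}
    (h : (x * y) ^ 2 = ((m * m : ℤ) : Ω)) : x ∈ K := by
  have h1 : (x * y) ^ 2 = (m : Ω) ^ 2 := by rw [h]; push_cast; ring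
  have hm : (m : Ω) ∈ K := int_mem K m
  rcases sq_eq_sq_iff_eq_or_eq_neg.mp h1 with h2 | h2
  · have : x = m / y := by field_simp; exact h2
    rw [this]
    exact K.div_mem hm hy
  · have : x = -m / y := by field_simp; exact h2
    rw [this]
    exact K.div_mem (K.neg_mem hm) hy

theorem root_ne {n : ℤ} (hn : n ≠ 0) {x : Ω} (hx : x ^ 2 = (n : Ω)) : x ≠ 0 := by
  rintro rfl
  apply hn
  have : (n : Ω) = 0 := by rw [← hx]; ring
  exact_mod_cast this

theorem root_mem {d e : ℤ} {C : Finset ℤ} (he : e ∈ C) {x : Ω} (hx : x ^ 2 = ((d * e : ℤ) : Ω)) :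
    x ∈ mqG Ω d C :=
  IntermediateField.subset_adjoin ℚ _ ⟨e, he, hx⟩

theorem Split.fieldG_eq {d f : ℤ} {C C₁ C₂ : Finset ℤ} (h : Split d f C C₁ C₂) (hp : Sqf C)
    (hr : HasRoots Ω C) : mqG Ω f C₂ = mqG Ω d C₁ := by
  have hd := (hp d (h.sub1 h.d1)).ne_zero
  have hf := (hp f (h.sub2 h.f2)).ne_zero
  apply le_antisymm
  · apply IntermediateField.adjoin_le_iff.mpr
    rintro x ⟨g, hg, hx⟩
    obtain ⟨e, he, m, hm⟩ := h.to1 g hg
    have he' := (hp e (h.sub1 he)).ne_zero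
    obtain ⟨y, hy⟩ := hr d (h.sub1 h.d1) e (h.sub1 he)
    apply mem_of_sq' (root_mem he hy) (root_ne (mul_ne_zero hd he') hy) (m := m)
    rw [mul_pow, hx, hy, ← hm]
    push_cast
    ring
  · apply IntermediateField.adjoin_le_iff.mpr
    rintro x ⟨e, he, hx⟩
    obtain ⟨g, hg, m, hm⟩ := h.to2 e he
    have hg' := (hp g (h.sub2 hg)).ne_zero
    obtain ⟨y, hy⟩ := hr f (h.sub2 h.f2) g (h.sub2 hg)
    apply mem_of_sq' (root_mem hg hy) (root_ne (mul_ne_zero hf hg') hy) (m := m)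
    rw [mul_pow, hx, hy, ← hm]
    push_cast
    ring

theorem mqG_mono {d : ℤ} {C D : Finset ℤ} (h : C ⊆ D) : mqG Ω d C ≤ mqG Ω d D := by
  apply IntermediateField.adjoin.mono
  rintro x ⟨e, he, hx⟩
  exact ⟨e, h he, hx⟩

/-- The field `F(s)`, `s ^ 2 ∈ F`, `s ∉ F`. -/
def quadExtG (F : IntermediateField ℚ Ω) (s : Ω) (v : Ω) (hv : v ∈ F) (hs : s ^ 2 = v)
    (hsF : s ∉ F) : IntermediateField ℚ Ω where
  carrier := {z | ∃ a ∈ F, ∃ b ∈ F, z = a + b * s}
  mul_mem' := by
    rintro x y ⟨a, ha, b, hb, rfl⟩ ⟨c, hc, d, hd, rfl⟩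
    refine ⟨a * c + b * d * v, F.add_mem (F.mul_mem ha hc) (F.mul_mem (F.mul_mem hb hd) hv),
      a * d + b * c, F.add_mem (F.mul_mem ha hd) (F.mul_mem hb hc), ?_⟩
    rw [← hs]
    ring
  add_mem' := by
    rintro x y ⟨a, ha, b, hb, rfl⟩ ⟨c, hc, d, hd, rfl⟩
    exact ⟨a + c, F.add_mem ha hc, b + d, F.add_mem hb hd, by ring⟩
  algebraMap_mem' := by
    intro q
    exact ⟨_, F.algebraMap_mem q, 0, F.zero_mem, by ring⟩
  inv_mem' := by
    rintro x ⟨a, ha, b, hb, rfl⟩
    by_cases h0 : a + b * s = 0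
    · refine ⟨0, F.zero_mem, 0, F.zero_mem, ?_⟩
      rw [h0]
      simp
    · have h1 : a - b * s ≠ 0 := by
        intro h1
        by_cases hb0 : b = 0
        · apply h0
          rw [hb0] at h1 ⊢
          linear_combination h1
        · apply hsF
          have : s = a / b := by
            field_simp
            linear_combination -h1
          rw [this]
          exact F.div_mem ha hb
      have hn : a * a - b * b * v ∈ F :=
        F.sub_mem (F.mul_mem ha ha) (F.mul_mem (F.mul_mem hb hb) hv)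
      have hne : a * a - b * b * v ≠ 0 := by
        have : a * a - b * b * v = (a + b * s) * (a - b * s) := by rw [← hs]; ring
        rw [this]
        exact mul_ne_zero h0 h1
      refine ⟨a / (a * a - b * b * v), F.div_mem ha hn, -b / (a * a - b * b * v),
        F.div_mem (F.neg_mem hb) hn, ?_⟩
      rw [inv_eq_one_div, div_eq_iff h0]
      have e : (a / (a * a - b * b * v) + -b / (a * a - b * b * v) * s) * (a + b * s) =
          (a * a - b * b * s ^ 2) / (a * a - b * b * v) := by ring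
      rw [e, hs, div_self hne]

theorem Split.memG_iff {d f : ℤ} {C C₁ C₂ : Finset ℤ} (h : Split d f C C₁ C₂) (hp : Sqf C)
    (hr : HasRoots Ω C) {s : Ω} (hs2 : s ^ 2 = ((d * f : ℤ) : Ω)) (hsF : s ∉ mqG Ω d C₁) {z : Ω}
    (hz : z ∈ mqG Ω d C) :
    ∃ a ∈ mqG Ω d C₁, ∃ b ∈ mqG Ω d C₁, z = a + b * s := by
  have hd := (hp d (h.sub1 h.d1)).ne_zero
  have hf := (hp f (h.sub2 h.f2)).ne_zero
  have hdf := mul_ne_zero hd hf
  have hs0 : s ≠ 0 := root_ne hdf hs2
  have hint : ∀ n : ℤ, (n : Ω) ∈ mqG Ω d C₁ := fun n => int_mem _ n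
  have hle : mqG Ω d C ≤ quadExtG (mqG Ω d C₁) s _ (hint (d * f)) hs2 hsF := by
    apply IntermediateField.adjoin_le_iff.mpr
    rintro x ⟨e, he, hx⟩
    rw [h.union] at he
    rcases Finset.mem_union.mp he with he1 | he2
    · exact ⟨x, IntermediateField.subset_adjoin ℚ _ ⟨e, he1, hx⟩, 0, (mqG Ω d C₁).zero_mem,
        by ring⟩
    · obtain ⟨e', he', m, hm⟩ := h.to1 e he2
      have hee := (hp e' (h.sub1 he')).ne_zero
      obtain ⟨y, hy2⟩ := hr d (h.sub1 h.d1) e' (h.sub1 he')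
      have hy := root_mem he' hy2
      have hy0 := root_ne (mul_ne_zero hd hee) hy2
      have hff : (f : Ω) ≠ 0 := by exact_mod_cast hf
      have hdd : (d : Ω) ≠ 0 := by exact_mod_cast hd
      have hxs : x / s ∈ mqG Ω d C₁ := by
        have h1 : x / s * f ∈ mqG Ω d C₁ := by
          apply mem_of_sq' hy hy0 (m := m)
          rw [mul_pow, mul_pow, div_pow, hx, hs2, hy2, ← hm]
          push_cast
          field_simp
        have h2 : x / s = x / s * f / f := by
          field_simp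
        rw [h2]
        exact (mqG Ω d C₁).div_mem h1 (hint f)
      exact ⟨0, (mqG Ω d C₁).zero_mem, x / s, hxs, by field_simp; ring⟩
  exact hle hz

end Pool.Agent.W92892cH77
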