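import Mathlib

/-!
Orders at the maximal ideals of a Dedekind domain.
-/

set_option autoImplicit false
set_option linter.unusedSectionVars false

namespace Pool.Agent.W92892cH77

open IsDedekindDomain FractionalIdeal nonZeroDivisors WithZero

variable {R K : Type*} [CommRing R] [IsDedekindDomain R] [Field K] [Algebra R K] [IsFractionRing R K]

/-- The order of `x` at `v` (`0` for `x = 0`). -/
noncomputable def ord (v : HeightOneSpectrum R) (x : K) : ℤ := count K v (spanSingleton R⁰ x)

theorem span_ne {x : K} (hx : x ≠ 0) : spanSingleton R⁰ x ≠ 0 :=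
  spanSingleton_ne_zero_iff.mpr hx

theorem ord_mul (v : HeightOneSpectrum R) {x y : K} (hx : x ≠ 0) (hy : y ≠ 0) :
    ord v (x * y) = ord v x + ord v y := by
  unfold ord
  rw [← spanSingleton_mul_spanSingleton]
  exact count_mul K v (span_ne hx) (span_ne hy)

theorem ord_pow (v : HeightOneSpectrum R) (x : K) (n : ℕ) : ord v (x ^ n) = n * ord v x := by
  unfold ord
  rw [← spanSingleton_pow]
  exact count_pow K v n _

theorem ord_valuation (v : HeightOneSpectrum R) {x : K} (hx : x ≠ 0) :
    v.valuation K x = exp (-(ord v x)) := by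
  obtain ⟨n, d, hd, rfl⟩ := IsFractionRing.div_surjective (A := R) x
  have hd0 : (d : R) ≠ 0 := nonZeroDivisors.ne_zero hd
  have hn0 : n ≠ 0 := by
    rintro rfl
    simp at hx
  have hdK : algebraMap R K d ≠ 0 := by
    rw [Ne, FaithfulSMul.algebraMap_eq_zero_iff]; exact hd0
  have hnK : algebraMap R K n ≠ 0 := by
    rw [Ne, FaithfulSMul.algebraMap_eq_zero_iff]; exact hn0
  have key : ∀ r : R, r ≠ 0 → v.valuation K (algebraMap R K r) = exp (-(ord v (algebraMap R K r))) := by
    intro r hr
    have h1 : ord v (algebraMap R K r) =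
        ((Associates.mk v.asIdeal).count (Associates.mk (Ideal.span {r})).factors : ℤ) := by
      unfold ord
      rw [← coeIdeal_span_singleton]
      exact count_coe K v (by simpa using hr)
    rw [HeightOneSpectrum.valuation_of_algebraMap, HeightOneSpectrum.intValuation_if_neg _ hr, h1]
  have h2 : ord v (algebraMap R K n / algebraMap R K d) =
      ord v (algebraMap R K n) - ord v (algebraMap R K d) := by
    have h3 := ord_mul v (x := algebraMap R K n / algebraMap R K d) (y := algebraMap R K d)
      (div_ne_zero hnK hdK) hdK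
    rw [div_mul_cancel₀ _ hdK] at h3
    linarith
  rw [map_div₀, key n hn0, key d hd0, h2, ← exp_sub]
  congr 1
  ring

theorem ord_neg (v : HeightOneSpectrum R) (x : K) : ord v (-x) = ord v x := by
  have h1 := ord_pow v (-x) 2
  have h2 := ord_pow v x 2
  rw [neg_sq] at h1
  rw [h1] at h2
  push_cast at h2
  linarith

theorem ord_lt_iff (v : HeightOneSpectrum R) {x y : K} (hx : x ≠ 0) (hy : y ≠ 0) :
    v.valuation K x < v.valuation K y ↔ ord v y < ord v x := by
  rw [ord_valuation v hx, ord_valuation v hy, exp_lt_exp]
  constructor <;> intro h <;> linarith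

theorem ord_add_of_lt (v : HeightOneSpectrum R) {x y : K} (hx : x ≠ 0) (hy : y ≠ 0)
    (hxy : x + y ≠ 0) (h : ord v x < ord v y) : ord v (x + y) = ord v x := by
  have h1 : v.valuation K y < v.valuation K x := (ord_lt_iff v hy hx).mpr h
  have h2 : v.valuation K (x + y) = v.valuation K x := Valuation.map_add_eq_of_lt_left _ h1
  rw [ord_valuation v hxy, ord_valuation v hx] at h2
  have := exp_injective h2
  linarith

theorem ord_eq_zero (v : HeightOneSpectrum R) {r : R} (hr : r ∉ v.asIdeal) :
    ord v (algebraMap R K r) = 0 := by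
  have hr0 : r ≠ 0 := by
    rintro rfl
    exact hr (Ideal.zero_mem _)
  have hrK : algebraMap R K r ≠ 0 := by
    rw [Ne, FaithfulSMul.algebraMap_eq_zero_iff]; exact hr0
  have h1 : v.valuation K (algebraMap R K r) = 1 := by
    rw [HeightOneSpectrum.valuation_of_algebraMap]
    exact HeightOneSpectrum.intValuation_eq_one_iff.mpr hr
  rw [ord_valuation v hrK, ← exp_zero] at h1
  have := exp_injective h1
  linarith

/-- The valuations of `x - e` at the primes which do not divide the differences are even. -/
theorem even_ord (v : HeightOneSpectrum R) {u s w y : K} (hu : u ≠ 0) (hs : s ≠ 0) (hw : w ≠ 0)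
    (h : y ^ 2 = u * s * w) (h1 : ord v (s - u) = 0) (h1' : s - u ≠ 0)
    (h2 : ord v (w - u) = 0) (h2' : w - u ≠ 0) : Even (ord v u) := by
  have hval : 2 * ord v y = ord v u + ord v s + ord v w := by
    rw [← ord_mul v hu hs, ← ord_mul v (mul_ne_zero hu hs) hw, ← h, ord_pow]
    norm_num
  rcases lt_trichotomy (ord v u) 0 with hn | hn | hn
  · have e1 : ord v s = ord v u := by
      have := ord_add_of_lt v (x := u) (y := s - u) hu h1' (by simpa using hs)
        (by rw [h1]; exact hn)
      simpa using this
    have e2 : ord v w = ord v u := by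
      have := ord_add_of_lt v (x := u) (y := w - u) hu h2' (by simpa using hw)
        (by rw [h2]; exact hn)
      simpa using this
    rw [e1, e2] at hval
    exact ⟨ord v y - ord v u, by linarith⟩
  · rw [hn]; exact Even.zero
  · have e1 : ord v s = 0 := by
      have := ord_add_of_lt v (x := s - u) (y := u) h1' hu (by simpa using hs)
        (by rw [h1]; exact hn)
      rw [← h1, ← this]
      congr 1
      ring
    have e2 : ord v w = 0 := by
      have := ord_add_of_lt v (x := w - u) (y := u) h2' hu (by simpa using hw)
        (by rw [h2]; exact hn)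
      rw [← h2, ← this]
      congr 1
      ring
    rw [e1, e2] at hval
    exact ⟨ord v y, by linarith⟩

end Pool.Agent.W92892cH77
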