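import Pool.Agent.W_92892c_h77.Cls

/-!
The number of primes of a number field dividing an integer, and finiteness of the classification.
-/

set_option autoImplicit false
set_option linter.unusedSectionVars false
set_option linter.deprecated false

namespace Pool.Agent.W92892cH77

open IsDedekindDomain nonZeroDivisors NumberField

variable (F : Type) [Field F] [NumberField F]

/-- At most `[F : ℚ]` primes divide a rational prime. -/
theorem card_over_prime {p : ℕ} (hp : p.Prime) (S : Finset (HeightOneSpectrum (𝓞 F)))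
    (hS : ∀ v ∈ S, ((p : ℤ) : 𝓞 F) ∈ v.asIdeal) : S.card ≤ Module.finrank ℚ F := by
  classical
  have hpZ : Prime (p : ℤ) := Nat.prime_iff_prime_int.mp hp
  have hne : (Ideal.span {(p : ℤ)} : Ideal ℤ) ≠ ⊥ := by
    rw [Ne, Ideal.span_singleton_eq_bot]
    exact_mod_cast hp.ne_zero
  have hprime : (Ideal.span {(p : ℤ)} : Ideal ℤ).IsPrime :=
    (Ideal.span_singleton_prime (by exact_mod_cast hp.ne_zero)).mpr hpZ
  have hmax : (Ideal.span {(p : ℤ)} : Ideal ℤ).IsMaximal := hprime.isMaximal hne
  have h1 := Ideal.card_primesOverFinset_le_finrank (𝓞 F) ℚ F (p := Ideal.span {(p : ℤ)}) hne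
  refine le_trans ?_ h1
  refine Finset.card_le_card_of_injOn (fun v => v.asIdeal) ?_ ?_
  · intro v hv
    show v.asIdeal ∈ (IsDedekindDomain.primesOverFinset (Ideal.span {(p : ℤ)}) (𝓞 F) : Set (Ideal (𝓞 F)))
    rw [Finset.mem_coe, IsDedekindDomain.mem_primesOverFinset_iff hne]
    refine ⟨v.isPrime, ⟨?_⟩⟩
    have h2 : (Ideal.span {(p : ℤ)} : Ideal ℤ) ≤ v.asIdeal.under ℤ := by
      rw [Ideal.span_singleton_le_iff_mem, Ideal.under_def, Ideal.mem_comap]
      exact hS v hv
    exact (hmax.eq_of_le (Ideal.IsPrime.ne_top (Ideal.IsPrime.under ℤ v.asIdeal)) h2)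
  · intro v _ w _ h
    exact HeightOneSpectrum.ext h

/-- The primes dividing a nonzero element. -/
theorem finite_div {D : 𝓞 F} (hD : D ≠ 0) : {v : HeightOneSpectrum (𝓞 F) | D ∈ v.asIdeal}.Finite := by
  have h := Ideal.finite_factors (R := 𝓞 F) (I := Ideal.span {D}) (by
    rw [Ne, Ideal.zero_eq_bot, Ideal.span_singleton_eq_bot]; exact hD)
  refine h.subset ?_
  intro v hv
  show v.asIdeal ∣ Ideal.span {D}
  rw [Ideal.dvd_span_singleton]
  exact hv

/-- The primes dividing `d D`: a finite set, whose size is bounded in terms of `ω(d)`. -/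
theorem exists_primes {D : 𝓞 F} (hD : D ≠ 0) (d : ℤ) (hd : d ≠ 0) :
    ∃ S : Finset (HeightOneSpectrum (𝓞 F)), (∀ v, v ∉ S → D ∉ v.asIdeal ∧ ((d : ℤ) : 𝓞 F) ∉ v.asIdeal)
      ∧ S.card ≤ (finite_div F hD).toFinset.card +
        d.natAbs.primeFactors.card * Module.finrank ℚ F := by
  classical
  have hpn : ∀ p : ℕ, p.Prime → (((p : ℤ) : ℤ) : 𝓞 F) ≠ 0 := by
    intro p hp
    exact_mod_cast hp.ne_zero
  let T : ℕ → Finset (HeightOneSpectrum (𝓞 F)) := fun p =>
    if hp : p.Prime then (finite_div F (hpn p hp)).toFinset else ∅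
  let S := (finite_div F hD).toFinset ∪ d.natAbs.primeFactors.biUnion T
  refine ⟨S, ?_, ?_⟩
  · intro v hv
    have hv1 : v ∉ (finite_div F hD).toFinset := fun h => hv (Finset.mem_union_left _ h)
    have hv2 : v ∉ d.natAbs.primeFactors.biUnion T := fun h => hv (Finset.mem_union_right _ h)
    constructor
    · intro h
      apply hv1
      rw [Set.Finite.mem_toFinset]
      exact h
    · intro h
      apply hv2
      -- some prime factor of `d` is in `v`
      have h1 : ((d.natAbs : ℕ) : 𝓞 F) ∈ v.asIdeal := by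
        rcases Int.natAbs_eq d with h2 | h2
        · rw [h2] at h
          simpa using h
        · rw [h2] at h
          have : -((-(d.natAbs : ℤ) : ℤ) : 𝓞 F) ∈ v.asIdeal := v.asIdeal.neg_mem h
          simpa using this
      have key : ∀ n : ℕ, n ≠ 0 → ((n : ℕ) : 𝓞 F) ∈ v.asIdeal → ∃ p ∈ n.primeFactors,
          ((p : ℕ) : 𝓞 F) ∈ v.asIdeal := by
        intro n
        induction n using Nat.recOnMul with
        | zero => intro h; exact absurd rfl h
        | one =>
          intro _ h
          exfalso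
          apply v.isPrime.ne_top
          rw [Ideal.eq_top_iff_one]
          simpa using h
        | prime p hp =>
          intro _ h
          exact ⟨p, by simp [hp.primeFactors], h⟩
        | mul a b iha ihb =>
          intro hab h
          have ha : a ≠ 0 := left_ne_zero_of_mul hab
          have hb : b ≠ 0 := right_ne_zero_of_mul hab
          rw [Nat.cast_mul] at h
          rcases v.isPrime.mem_or_mem h with h | h
          · obtain ⟨p, hp, hpv⟩ := iha ha h
            exact ⟨p, by rw [Nat.primeFactors_mul ha hb]; exact Finset.mem_union_left _ hp, hpv⟩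
          · obtain ⟨p, hp, hpv⟩ := ihb hb h
            exact ⟨p, by rw [Nat.primeFactors_mul ha hb]; exact Finset.mem_union_right _ hp, hpv⟩
      obtain ⟨p, hp, hpv⟩ := key d.natAbs (Int.natAbs_ne_zero.mpr hd) h1
      rw [Finset.mem_biUnion]
      refine ⟨p, hp, ?_⟩
      have hpp : p.Prime := Nat.prime_of_mem_primeFactors hp
      show v ∈ (if hp : p.Prime then (finite_div F (hpn p hp)).toFinset else ∅)
      rw [dif_pos hpp, Set.Finite.mem_toFinset]
      show (((p : ℤ)) : 𝓞 F) ∈ v.asIdeal
      simpa using hpv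
  · refine (Finset.card_union_le _ _).trans ?_
    apply Nat.add_le_add_left
    refine Finset.card_biUnion_le_card_mul _ _ _ ?_
    intro p hp
    have hpp : p.Prime := Nat.prime_of_mem_primeFactors hp
    have hT : T p = (finite_div F (hpn p hpp)).toFinset := dif_pos hpp
    rw [hT]
    apply card_over_prime F hpp
    intro v hv
    rw [Set.Finite.mem_toFinset] at hv
    exact hv

/-- Finiteness of the classes. -/
theorem finite_ideal_classes : Finite ((FractionalIdeal (𝓞 F)⁰ F)ˣ ⧸ (toPrincipalIdeal (𝓞 F) F).range) :=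
  Finite.of_equiv _ (ClassGroup.equiv (R := 𝓞 F) F).toEquiv

theorem finite_unit_classes : Finite ((𝓞 F)ˣ ⧸ (powMonoidHom 2 : (𝓞 F)ˣ →* (𝓞 F)ˣ).range) := by
  have : Group.FG (𝓞 F)ˣ := Group.fg_iff_monoid_fg.mpr inferInstance
  have := Subgroup.finiteIndex_range_powMonoidHom_of_fg (𝓞 F)ˣ (n := 2) two_ne_zero
  exact Subgroup.finite_quotient_of_finiteIndex

theorem card_ClsT (S : Finset (HeightOneSpectrum (𝓞 F))) :
    Finite (ClsT (𝓞 F) F S) ∧ Nat.card (ClsT (𝓞 F) F S) =
      2 ^ S.card * (Nat.card ((FractionalIdeal (𝓞 F)⁰ F)ˣ ⧸ (toPrincipalIdeal (𝓞 F) F).range) *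
        Nat.card ((𝓞 F)ˣ ⧸ (powMonoidHom 2 : (𝓞 F)ˣ →* (𝓞 F)ˣ).range)) := by
  classical
  have h1 := finite_ideal_classes F
  have h2 := finite_unit_classes F
  refine ⟨inferInstance, ?_⟩
  rw [Nat.card_prod, Nat.card_prod]
  congr 1
  rw [Nat.card_eq_fintype_card, Fintype.card_fun, Fintype.card_bool, Fintype.card_coe]

end Pool.Agent.W92892cH77
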