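import Mathlib

/-!
Scaling isomorphisms of Weierstrass curves: if `W'.a_i = v^i W.a_i` with `v ≠ 0` then
`(x, y) ↦ (v^2 x, v^3 y)` is an injective homomorphism `W(F) → W'(F)`.
-/

set_option autoImplicit false
set_option linter.unusedSectionVars false

namespace Pool.Agent.W92892cH77

open WeierstrassCurve WeierstrassCurve.Affine

variable {F : Type*} [Field F] [DecidableEq F]

/-- `W'` is the scaling of `W` by `v`. -/
structure IsScale (v : F) (W W' : WeierstrassCurve F) : Prop where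
  ne : v ≠ 0
  a1 : W'.a₁ = v * W.a₁
  a2 : W'.a₂ = v ^ 2 * W.a₂
  a3 : W'.a₃ = v ^ 3 * W.a₃
  a4 : W'.a₄ = v ^ 4 * W.a₄
  a6 : W'.a₆ = v ^ 6 * W.a₆

namespace IsScale

variable {v : F} {W W' : WeierstrassCurve F}

theorem symm (h : IsScale v W W') : IsScale v⁻¹ W' W := by
  have hv := h.ne
  refine ⟨inv_ne_zero hv, ?_, ?_, ?_, ?_, ?_⟩
  · rw [h.a1]; field_simp
  · rw [h.a2]; field_simp
  · rw [h.a3]; field_simp
  · rw [h.a4]; field_simp
  · rw [h.a6]; field_simp

theorem equation (h : IsScale v W W') {x y : F} (hxy : W.toAffine.Equation x y) :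
    W'.toAffine.Equation (v ^ 2 * x) (v ^ 3 * y) := by
  rw [WeierstrassCurve.Affine.equation_iff] at hxy ⊢
  simp only [WeierstrassCurve.toAffine] at hxy ⊢
  rw [h.a1, h.a2, h.a3, h.a4, h.a6]
  linear_combination v ^ 6 * hxy

theorem nonsingular (h : IsScale v W W') {x y : F} (hxy : W.toAffine.Nonsingular x y) :
    W'.toAffine.Nonsingular (v ^ 2 * x) (v ^ 3 * y) := by
  have hv := h.ne
  rw [WeierstrassCurve.Affine.nonsingular_iff] at hxy ⊢
  refine ⟨h.equation hxy.1, ?_⟩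
  rcases hxy.2 with h1 | h1
  · left
    intro h2
    apply h1
    simp only [WeierstrassCurve.toAffine] at h2 ⊢
    rw [h.a1, h.a2, h.a4] at h2
    have h4 : v ^ 4 ≠ 0 := pow_ne_zero 4 hv
    apply mul_left_cancel₀ h4
    linear_combination h2
  · right
    intro h2
    apply h1
    simp only [WeierstrassCurve.toAffine] at h2 ⊢
    rw [h.a1, h.a3] at h2
    have h3 : v ^ 3 ≠ 0 := pow_ne_zero 3 hv
    apply mul_left_cancel₀ h3
    linear_combination h2

theorem negY (h : IsScale v W W') (x y : F) :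
    W'.toAffine.negY (v ^ 2 * x) (v ^ 3 * y) = v ^ 3 * W.toAffine.negY x y := by
  simp only [WeierstrassCurve.Affine.negY, WeierstrassCurve.toAffine]
  rw [h.a1, h.a3]
  ring

theorem slope (h : IsScale v W W') (x₁ x₂ y₁ y₂ : F) :
    W'.toAffine.slope (v ^ 2 * x₁) (v ^ 2 * x₂) (v ^ 3 * y₁) (v ^ 3 * y₂) =
      v * W.toAffine.slope x₁ x₂ y₁ y₂ := by
  have hv := h.ne
  have h2 : v ^ 2 ≠ 0 := pow_ne_zero 2 hv
  have h3 : v ^ 3 ≠ 0 := pow_ne_zero 3 hv
  by_cases hx : x₁ = x₂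
  · by_cases hy : y₁ = W.toAffine.negY x₂ y₂
    · rw [WeierstrassCurve.Affine.slope_of_Y_eq hx hy,
        WeierstrassCurve.Affine.slope_of_Y_eq (by rw [hx]) (by rw [hy, h.negY]), mul_zero]
    · rw [WeierstrassCurve.Affine.slope_of_Y_ne hx hy,
        WeierstrassCurve.Affine.slope_of_Y_ne (by rw [hx]) (by
          rw [h.negY]
          exact fun h' => hy (mul_left_cancel₀ h3 h'))]
      rw [h.negY]
      simp only [WeierstrassCurve.toAffine]
      rw [h.a1, h.a2, h.a4]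
      rw [← mul_sub]
      by_cases h0 : y₁ - WeierstrassCurve.Affine.negY W x₁ y₁ = 0
      · rw [h0]; simp
      · field_simp
  · rw [WeierstrassCurve.Affine.slope_of_X_ne hx,
      WeierstrassCurve.Affine.slope_of_X_ne (fun h' => hx (mul_left_cancel₀ h2 h'))]
    rw [← mul_sub, ← mul_sub]
    have h0 : x₁ - x₂ ≠ 0 := sub_ne_zero.mpr hx
    field_simp

theorem addX (h : IsScale v W W') (x₁ x₂ l : F) :
    W'.toAffine.addX (v ^ 2 * x₁) (v ^ 2 * x₂) (v * l) = v ^ 2 * W.toAffine.addX x₁ x₂ l := by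
  simp only [WeierstrassCurve.Affine.addX, WeierstrassCurve.toAffine]
  rw [h.a1, h.a2]
  ring

theorem addY (h : IsScale v W W') (x₁ x₂ y₁ l : F) :
    W'.toAffine.addY (v ^ 2 * x₁) (v ^ 2 * x₂) (v ^ 3 * y₁) (v * l) =
      v ^ 3 * W.toAffine.addY x₁ x₂ y₁ l := by
  simp only [WeierstrassCurve.Affine.addY, WeierstrassCurve.Affine.negAddY]
  rw [h.addX, ← h.negY]
  congr 1
  ring

/-- The homomorphism on points. -/
noncomputable def hom (h : IsScale v W W') : W.toAffine.Point →+ W'.toAffine.Point where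
  toFun P := match P with
    | .zero => .zero
    | .some x y hxy => .some (v ^ 2 * x) (v ^ 3 * y) (h.nonsingular hxy)
  map_zero' := rfl
  map_add' := by
    rintro (_ | ⟨x₁, y₁, h₁⟩) (_ | ⟨x₂, y₂, h₂⟩)
    any_goals rfl
    have hv := h.ne
    have hv2 : v ^ 2 ≠ 0 := pow_ne_zero 2 hv
    have hv3 : v ^ 3 ≠ 0 := pow_ne_zero 3 hv
    by_cases hxy : x₁ = x₂ ∧ y₁ = W.toAffine.negY x₂ y₂
    · rw [Point.add_of_Y_eq hxy.left hxy.right,
        Point.add_of_Y_eq (by rw [hxy.1]) (by rw [hxy.2, h.negY])]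
      rfl
    · rw [Point.add_some hxy, Point.add_some (fun h' => hxy
        ⟨mul_left_cancel₀ hv2 h'.1, mul_left_cancel₀ hv3 (by rw [h'.2, h.negY])⟩)]
      simp only [Point.some.injEq]
      rw [h.slope, h.addX, h.addY]
      exact ⟨rfl, rfl⟩

theorem hom_zero (h : IsScale v W W') : h.hom (.zero) = .zero := rfl

theorem hom_some (h : IsScale v W W') {x y : F} (hxy : W.toAffine.Nonsingular x y) :
    h.hom (.some x y hxy) = .some (v ^ 2 * x) (v ^ 3 * y) (h.nonsingular hxy) := rfl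

theorem hom_injective (h : IsScale v W W') : Function.Injective h.hom := by
  have hv := h.ne
  have hv2 : v ^ 2 ≠ 0 := pow_ne_zero 2 hv
  have hv3 : v ^ 3 ≠ 0 := pow_ne_zero 3 hv
  rintro (_ | ⟨x₁, y₁, h₁⟩) (_ | ⟨x₂, y₂, h₂⟩) hh
  · rfl
  · exact absurd hh (by simp [hom])
  · exact absurd hh (by simp [hom])
  · rw [hom_some, hom_some, Point.some.injEq] at hh
    simp only [Point.some.injEq]
    exact ⟨mul_left_cancel₀ hv2 hh.1, mul_left_cancel₀ hv3 hh.2⟩

end IsScale

end Pool.Agent.W92892cH77
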