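import Pool.Agent.W_92892c_v15.Stmt

/-!
Square classes of integers, and cosets.
-/

set_option autoImplicit false

namespace Pool.Agent.W92892cH77

theorem isSquare_cancel {x y : ℤ} (hy : y ≠ 0) (h : IsSquare (x * (y * y))) : IsSquare x := by
  rw [← Rat.isSquare_intCast_iff] at h ⊢
  obtain ⟨r, hr⟩ := h
  have hy' : (y : ℚ) ≠ 0 := by exact_mod_cast hy
  refine ⟨r / y, ?_⟩
  push_cast at hr
  field_simp
  linear_combination hr

theorem eq_of_isSquare_mul_nat {a b : ℕ} (ha : Squarefree a) (hb : Squarefree b)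
    (h : IsSquare (a * b)) : a = b := by
  have ha0 : a ≠ 0 := ha.ne_zero
  have hb0 : b ≠ 0 := hb.ne_zero
  have key : ∀ {a b : ℕ}, Squarefree a → Squarefree b → IsSquare (a * b) → ∀ p, p.Prime → p ∣ a →
      p ∣ b := by
    intro a b ha hb h p hp hpa
    obtain ⟨m, hm⟩ := h
    have h1 : p ∣ m * m := by rw [← hm]; exact Dvd.dvd.mul_right hpa b
    have h2 : p ∣ m := by
      rcases hp.dvd_mul.mp h1 with h | h <;> exact h
    obtain ⟨a', rfl⟩ := hpa
    obtain ⟨m', rfl⟩ := h2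
    have h3 : a' * b = p * (m' * m') := by
      apply Nat.eq_of_mul_eq_mul_left hp.pos
      linear_combination hm
    have h4 : p ∣ a' * b := ⟨_, h3⟩
    rcases hp.dvd_mul.mp h4 with h | h
    · exfalso
      obtain ⟨a'', rfl⟩ := h
      have := ha p ⟨a'', by ring⟩
      exact hp.one_lt.ne' (Nat.isUnit_iff.mp this)
    · exact h
  apply Nat.dvd_antisymm
  · rw [← Nat.prod_primeFactors_of_squarefree ha]
    rw [← Nat.prod_primeFactors_of_squarefree hb]
    apply Finset.prod_dvd_prod_of_subset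
    intro p hp
    rw [Nat.mem_primeFactors] at hp ⊢
    exact ⟨hp.1, key ha hb h p hp.1 hp.2.1, hb0⟩
  · rw [← Nat.prod_primeFactors_of_squarefree ha]
    rw [← Nat.prod_primeFactors_of_squarefree hb]
    apply Finset.prod_dvd_prod_of_subset
    intro p hp
    rw [Nat.mem_primeFactors] at hp ⊢
    exact ⟨hp.1, key hb ha (by rwa [mul_comm]) p hp.1 hp.2.1, ha0⟩

theorem eq_of_isSquare_mul {a b : ℤ} (ha : Squarefree a) (hb : Squarefree b) (ha0 : 0 < a)
    (hb0 : 0 < b) (h : IsSquare (a * b)) : a = b := by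
  have h1 : (a.natAbs : ℤ) = a := Int.natAbs_of_nonneg ha0.le
  have h2 : (b.natAbs : ℤ) = b := Int.natAbs_of_nonneg hb0.le
  have := eq_of_isSquare_mul_nat (Int.squarefree_natAbs.mpr ha) (Int.squarefree_natAbs.mpr hb) (by
    obtain ⟨m, hm⟩ := h
    refine ⟨m.natAbs, ?_⟩
    rw [← Int.natAbs_mul, ← Int.natAbs_mul, hm])
  rw [← h1, ← h2, this]

end Pool.Agent.W92892cH77
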